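import Pool.Agent.Helper26.TOR.Cx

/-!
The complex structure on `ℝ⁴` given by a positive definite plane in the second exterior power.
-/

set_option autoImplicit false

open Finset

namespace Pool.Agent.Helper26.TOR

/-- the two-form of a vector -/
def sk (x : Fin 6 → ℝ) : Matrix (Fin 4) (Fin 4) ℝ :=
  !![0, x 5, -x 4, x 3; -x 5, 0, x 2, -x 1; x 4, -x 2, 0, x 0; -x 3, x 1, -x 0, 0]

/-- the dual two-form -/
def du (x : Fin 6 → ℝ) : Matrix (Fin 4) (Fin 4) ℝ :=
  !![0, x 0, x 1, x 2; -x 0, 0, x 3, x 4; -x 1, -x 3, 0, x 5; -x 2, -x 4, -x 5, 0]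

/-- the second exterior power of a four by two matrix -/
def pw (A : Matrix (Fin 4) (Fin 2) ℝ) : Fin 6 → ℝ :=
  ![A 0 0 * A 1 1 - A 0 1 * A 1 0, A 0 0 * A 2 1 - A 0 1 * A 2 0, A 0 0 * A 3 1 - A 0 1 * A 3 0,
    A 1 0 * A 2 1 - A 1 1 * A 2 0, A 1 0 * A 3 1 - A 1 1 * A 3 0, A 2 0 * A 3 1 - A 2 1 * A 3 0]

lemma sk_du (x y : Fin 6 → ℝ) : sk x * du y + sk y * du x = -(B6 x y) • (1 : Matrix (Fin 4) (Fin 4) ℝ) := by
  rw [B6_apply]
  ext i j
  fin_cases i <;> fin_cases j <;> simp [sk, du] <;> ring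

lemma du_sk (x y : Fin 6 → ℝ) : du x * sk y + du y * sk x = -(B6 x y) • (1 : Matrix (Fin 4) (Fin 4) ℝ) := by
  rw [B6_apply]
  ext i j
  fin_cases i <;> fin_cases j <;> simp [sk, du] <;> ring

lemma sk_tr (x : Fin 6 → ℝ) : (sk x).transpose = -sk x := by
  ext i j
  fin_cases i <;> fin_cases j <;> simp [sk, Matrix.transpose_apply]

lemma du_tr (x : Fin 6 → ℝ) : (du x).transpose = -du x := by
  ext i j
  fin_cases i <;> fin_cases j <;> simp [du, Matrix.transpose_apply]

/-- the form on the columns of `A` -/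
lemma form_pw (x : Fin 6 → ℝ) (A : Matrix (Fin 4) (Fin 2) ℝ) :
    A.transpose * sk x * A = (B6 x (pw A)) • !![0, 1; -1, 0] := by
  rw [B6_apply]
  ext i j
  fin_cases i <;> fin_cases j <;>
    simp [sk, pw, Matrix.mul_apply, Fin.sum_univ_four, Matrix.transpose_apply] <;> ring

/-- the complex structure -/
noncomputable def cx (x y : Fin 6 → ℝ) : Matrix (Fin 4) (Fin 4) ℝ := (-(2 / B6 x x)) • (du x * sk y)

section

variable {x y : Fin 6 → ℝ} (hx : 0 < B6 x x) (hy : B6 y y = B6 x x) (hxy : B6 x y = 0)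

include hx in
lemma sk_cx : sk x * cx x y = sk y := by
  have h1 : sk x * du x = (-(B6 x x / 2)) • (1 : Matrix (Fin 4) (Fin 4) ℝ) := by
    have h := sk_du x x
    have h2 : (2 : ℝ) • (sk x * du x) = -(B6 x x) • (1 : Matrix (Fin 4) (Fin 4) ℝ) := by
      rw [two_smul, h]
    have h3 : sk x * du x = (1 / 2 : ℝ) • ((2 : ℝ) • (sk x * du x)) := by
      rw [smul_smul]
      norm_num
    rw [h3, h2, smul_smul]
    congr 1
    ring
  unfold cx
  rw [Matrix.mul_smul, ← Matrix.mul_assoc, h1, Matrix.smul_mul, Matrix.one_mul, smul_smul]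
  have h4 : -(2 / B6 x x) * -(B6 x x / 2) = 1 := by
    have := hx.ne'
    field_simp
  rw [h4, one_smul]

include hx hy hxy in
lemma cx_sq : cx x y * cx x y = -1 := by
  have h1 : du x * sk y = -(du y * sk x) := by
    have h := du_sk x y
    rw [hxy, neg_zero, zero_smul] at h
    exact eq_neg_of_add_eq_zero_left h
  have h2 : sk y * du y = (-(B6 x x / 2)) • (1 : Matrix (Fin 4) (Fin 4) ℝ) := by
    have h := sk_du y y
    have h2 : (2 : ℝ) • (sk y * du y) = -(B6 y y) • (1 : Matrix (Fin 4) (Fin 4) ℝ) := by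
      rw [two_smul, h]
    have h3 : sk y * du y = (1 / 2 : ℝ) • ((2 : ℝ) • (sk y * du y)) := by
      rw [smul_smul]
      norm_num
    rw [h3, h2, smul_smul, hy]
    congr 1
    ring
  have h2' : du x * sk x = (-(B6 x x / 2)) • (1 : Matrix (Fin 4) (Fin 4) ℝ) := by
    have h := du_sk x x
    have h2 : (2 : ℝ) • (du x * sk x) = -(B6 x x) • (1 : Matrix (Fin 4) (Fin 4) ℝ) := by
      rw [two_smul, h]
    have h3 : du x * sk x = (1 / 2 : ℝ) • ((2 : ℝ) • (du x * sk x)) := by
      rw [smul_smul]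
      norm_num
    rw [h3, h2, smul_smul]
    congr 1
    ring
  have h3 : (du x * sk y) * (du x * sk y) = (-(B6 x x / 2) ^ 2) • (1 : Matrix (Fin 4) (Fin 4) ℝ) := by
    have e1 : (du x * sk y) * (du x * sk y) = -((du x * (sk y * du y)) * sk x) := by
      conv_lhs => rw [h1]
      rw [Matrix.neg_mul, Matrix.mul_neg, neg_neg]
      have e2 : du y * sk x * (du y * sk x) = (du y * sk x) * (-(du x * sk y)) := by
        rw [h1, neg_neg]
      rw [e2, Matrix.mul_neg]
      have e3 : du y * sk x * (du x * sk y) = -(du x * sk y) * (-(du y * sk x)) := by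
        rw [h1, neg_neg]
      rw [e3]
      simp only [Matrix.neg_mul, Matrix.mul_neg, neg_neg, Matrix.mul_assoc]
    rw [e1, h2, Matrix.mul_smul, Matrix.mul_one, Matrix.smul_mul, h2', smul_smul, ← neg_smul]
    congr 1
    ring
  unfold cx
  rw [Matrix.smul_mul, Matrix.mul_smul, smul_smul, h3, smul_smul]
  have h4 : -(2 / B6 x x) * -(2 / B6 x x) * -(B6 x x / 2) ^ 2 = -1 := by
    have := hx.ne'
    field_simp
  rw [h4, neg_smul, one_smul]

include hx in
lemma cx_tr : (cx x y).transpose * sk x = sk y := by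
  have h := congrArg Matrix.transpose (sk_cx (y := y) hx)
  rw [Matrix.transpose_mul, sk_tr, sk_tr, Matrix.mul_neg] at h
  exact neg_injective h

include hxy in
/-- forms orthogonal to the plane are of type `(1,1)` -/
lemma cx_type {u : Fin 6 → ℝ} (hux : B6 u x = 0) (huy : B6 u y = 0) :
    (cx x y).transpose * sk u = -(sk u * cx x y) := by
  have h1 : sk u * du x = -(sk x * du u) := by
    have h := sk_du u x
    rw [hux, neg_zero, zero_smul] at h
    exact eq_neg_of_add_eq_zero_left h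
  have h2 : du u * sk y = -(du y * sk u) := by
    have h := du_sk u y
    rw [huy, neg_zero, zero_smul] at h
    exact eq_neg_of_add_eq_zero_left h
  have h3 : sk y * du x = -(sk x * du y) := by
    have h := sk_du x y
    rw [hxy, neg_zero, zero_smul] at h
    rw [add_comm] at h
    exact eq_neg_of_add_eq_zero_left h
  unfold cx
  rw [Matrix.transpose_smul, Matrix.transpose_mul, sk_tr, du_tr, Matrix.neg_mul, Matrix.mul_neg, neg_neg,
    h3, Matrix.smul_mul, Matrix.mul_smul, ← Matrix.mul_assoc, h1, Matrix.neg_mul, Matrix.neg_mul,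
    Matrix.mul_assoc (sk x) (du u), h2, Matrix.mul_neg, neg_neg, smul_neg, Matrix.mul_assoc]

end

/-- the Pfaffian identity -/
lemma pfaff (x : Fin 6 → ℝ) (a b c d : Fin 4 → ℝ) :
    (a ⬝ᵥ (sk x).mulVec b) * (c ⬝ᵥ (sk x).mulVec d) - (a ⬝ᵥ (sk x).mulVec c) * (b ⬝ᵥ (sk x).mulVec d) +
      (a ⬝ᵥ (sk x).mulVec d) * (b ⬝ᵥ (sk x).mulVec c) =
    B6 x x / 2 * B6 (pw (Matrix.of fun i j => if j = 0 then a i else b i))
      (pw (Matrix.of fun i j => if j = 0 then c i else d i)) := by
  rw [B6_apply, B6_apply]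
  simp only [sk, pw, dotProduct, Matrix.mulVec, Fin.sum_univ_four, Matrix.of_apply, Matrix.cons_val', Matrix.cons_val_zero, Matrix.cons_val_one]
  simp
  ring

private lemma move (J : Matrix (Fin 4) (Fin 4) ℝ) (v w : Fin 4 → ℝ) :
    (J.mulVec v) ⬝ᵥ w = v ⬝ᵥ (J.transpose.mulVec w) := by
  rw [Matrix.dotProduct_mulVec, Matrix.vecMul_transpose]

section

variable {x y : Fin 6 → ℝ} (hx : 0 < B6 x x) (hy : B6 y y = B6 x x) (hxy : B6 x y = 0)

private lemma skew (x : Fin 6 → ℝ) (v : Fin 4 → ℝ) : v ⬝ᵥ (sk x).mulVec v = 0 := by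
  simp [sk, dotProduct, Matrix.mulVec, Fin.sum_univ_four]
  ring

include hx hy hxy in
lemma det_nonneg (v v' : Fin 4 → ℝ) :
    0 ≤ B6 (pw (Matrix.of fun i j => if j = 0 then v i else (cx x y).mulVec v i))
      (pw (Matrix.of fun i j => if j = 0 then v' i else (cx x y).mulVec v' i)) := by
  have h := pfaff x v ((cx x y).mulVec v) v' ((cx x y).mulVec v')
  have e1 : ∀ w, (sk x).mulVec ((cx x y).mulVec w) = (sk y).mulVec w := by
    intro w
    rw [Matrix.mulVec_mulVec, sk_cx hx]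
  have e2 : ∀ w, (cx x y).transpose.mulVec ((sk x).mulVec w) = (sk y).mulVec w := by
    intro w
    rw [Matrix.mulVec_mulVec, cx_tr hx]
  have e3 : ∀ w, (cx x y).transpose.mulVec ((sk y).mulVec w) = -(sk x).mulVec w := by
    intro w
    have h1 : (cx x y).transpose * sk y = -sk x := by
      rw [← sk_cx (y := y) hx, ← Matrix.mul_assoc, cx_tr hx]
      have h2 : sk y * cx x y = sk x * (cx x y * cx x y) := by
        rw [← Matrix.mul_assoc, sk_cx hx]
      rw [h2, cx_sq hx hy hxy, Matrix.mul_neg, Matrix.mul_one]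
    rw [Matrix.mulVec_mulVec, h1, Matrix.neg_mulVec]
  rw [e1, e1, skew, skew, move, e3, move, e2, zero_mul, dotProduct_neg] at h
  have h5 : 0 ≤ B6 x x / 2 * B6 (pw (Matrix.of fun i j => if j = 0 then v i else (cx x y).mulVec v i))
      (pw (Matrix.of fun i j => if j = 0 then v' i else (cx x y).mulVec v' i)) := by
    rw [← h]
    nlinarith [sq_nonneg (v ⬝ᵥ (sk x).mulVec v'), sq_nonneg (v ⬝ᵥ (sk y).mulVec v')]
  by_contra hcon
  push Not at hcon
  have := mul_neg_of_pos_of_neg (half_pos hx) hcon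
  linarith

include hx hy hxy in
lemma hodge {u : Fin 6 → ℝ} (hux : B6 u x = 0) (huy : B6 u y = 0) (huu : 0 ≤ B6 u u) (v v' : Fin 4 → ℝ) :
    0 ≤ (v ⬝ᵥ (sk u).mulVec ((cx x y).mulVec v)) * (v' ⬝ᵥ (sk u).mulVec ((cx x y).mulVec v')) := by
  have h := pfaff u v ((cx x y).mulVec v) v' ((cx x y).mulVec v')
  have e1 : ∀ w, (cx x y).transpose.mulVec ((sk u).mulVec w) = -(sk u).mulVec ((cx x y).mulVec w) := by
    intro w
    rw [Matrix.mulVec_mulVec, cx_type hxy hux huy, Matrix.neg_mulVec, Matrix.mulVec_mulVec]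
  have e2 : ∀ w, (cx x y).mulVec ((cx x y).mulVec w) = -w := by
    intro w
    rw [Matrix.mulVec_mulVec, cx_sq hx hy hxy, Matrix.neg_mulVec, Matrix.one_mulVec]
  have e3 : (cx x y).mulVec v ⬝ᵥ (sk u).mulVec ((cx x y).mulVec v') = v ⬝ᵥ (sk u).mulVec v' := by
    rw [move, e1, e2, Matrix.mulVec_neg, neg_neg]
  have e4 : (cx x y).mulVec v ⬝ᵥ (sk u).mulVec v' = -(v ⬝ᵥ (sk u).mulVec ((cx x y).mulVec v')) := by
    rw [move, e1, dotProduct_neg]
  rw [e3, e4] at h
  have h5 := mul_nonneg (half_pos hx).le (det_nonneg hx hy hxy v v')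
  have h6 := det_nonneg hx hy hxy v v'
  have h7 := mul_nonneg (div_nonneg huu zero_le_two) h6
  nlinarith [sq_nonneg (v ⬝ᵥ (sk u).mulVec v'), sq_nonneg (v ⬝ᵥ (sk u).mulVec ((cx x y).mulVec v'))]

end

/-- the columns are independent -/
lemma rank_two {A : Matrix (Fin 4) (Fin 2) ℝ} (hA : pw A ≠ 0) : A.rank = 2 := by
  have hker : LinearMap.ker A.mulVecLin = ⊥ := by
    rw [LinearMap.ker_eq_bot']
    intro v hv
    rw [Matrix.mulVecLin_apply] at hv
    have h1 : ∀ a, A a 0 * v 0 + A a 1 * v 1 = 0 := by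
      intro a
      have := congrFun hv a
      simpa [Matrix.mulVec, dotProduct, Fin.sum_univ_two] using this
    have h2 : ∀ a b, (A a 0 * A b 1 - A a 1 * A b 0) * v 0 = 0 := by
      intro a b
      linear_combination A b 1 * h1 a - A a 1 * h1 b
    have h3 : ∀ a b, (A a 0 * A b 1 - A a 1 * A b 0) * v 1 = 0 := by
      intro a b
      linear_combination A a 0 * h1 b - A b 0 * h1 a
    by_contra hne
    apply hA
    have h4 : ∀ a b, A a 0 * A b 1 - A a 1 * A b 0 = 0 := by
      intro a b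
      by_contra hm
      apply hne
      funext j
      fin_cases j
      · exact (mul_eq_zero.mp (h2 a b)).resolve_left hm
      · exact (mul_eq_zero.mp (h3 a b)).resolve_left hm
    funext j
    fin_cases j <;> simp [pw, h4]
  have h := LinearMap.finrank_range_add_finrank_ker A.mulVecLin
  rw [hker, finrank_bot, Module.finrank_fintype_fun_eq_card, Fintype.card_fin] at h
  unfold Matrix.rank
  omega

section

variable {x y : Fin 6 → ℝ} (hx : 0 < B6 x x) (hy : B6 y y = B6 x x) (hxy : B6 x y = 0)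

include hx in
/-- planes orthogonal to `x` and `y` are complex lines -/
lemma invariant {A : Matrix (Fin 4) (Fin 2) ℝ} (hA : pw A ≠ 0) (h1 : B6 x (pw A) = 0)
    (h2 : B6 y (pw A) = 0) : ∃ c : Matrix (Fin 2) (Fin 2) ℝ, cx x y * A = A * c := by
  have hr := rank_two hA
  have hL : (A.transpose * sk x) * A = 0 := by
    rw [form_pw, h1, zero_smul]
  have hJ : (A.transpose * sk x) * (cx x y * A) = 0 := by
    rw [Matrix.mul_assoc, ← Matrix.mul_assoc (sk x), sk_cx hx, ← Matrix.mul_assoc, form_pw, h2, zero_smul]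
  have hu : IsUnit (sk x).det := by
    have h := sk_du x x
    have h3 : (sk x * du x).det ≠ 0 := by
      have h4 : sk x * du x = (-(B6 x x / 2)) • (1 : Matrix (Fin 4) (Fin 4) ℝ) := by
        have h5 : (2 : ℝ) • (sk x * du x) = -(B6 x x) • (1 : Matrix (Fin 4) (Fin 4) ℝ) := by
          rw [two_smul, h]
        have h6 : sk x * du x = (1 / 2 : ℝ) • ((2 : ℝ) • (sk x * du x)) := by
          rw [smul_smul]
          norm_num
        rw [h6, h5, smul_smul]
        congr 1
        ring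
      rw [h4, Matrix.det_smul, Matrix.det_one, mul_one]
      exact pow_ne_zero _ (neg_ne_zero.mpr (half_pos hx).ne')
    rw [Matrix.det_mul] at h3
    exact isUnit_iff_ne_zero.mpr (left_ne_zero_of_mul h3)
  have hrL : (A.transpose * sk x).rank = 2 := by
    rw [Matrix.rank_mul_eq_left_of_isUnit_det _ _ hu, Matrix.rank_transpose, hr]
  have hle : LinearMap.range A.mulVecLin ≤ LinearMap.ker (A.transpose * sk x).mulVecLin := by
    rintro v ⟨w, rfl⟩
    rw [LinearMap.mem_ker, Matrix.mulVecLin_apply, Matrix.mulVecLin_apply, Matrix.mulVec_mulVec, hL,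
      Matrix.zero_mulVec]
  have hfr : Module.finrank ℝ (LinearMap.range A.mulVecLin) =
      Module.finrank ℝ (LinearMap.ker (A.transpose * sk x).mulVecLin) := by
    have a1 := LinearMap.finrank_range_add_finrank_ker (A.transpose * sk x).mulVecLin
    unfold Matrix.rank at hr hrL
    rw [Module.finrank_fintype_fun_eq_card, Fintype.card_fin] at a1
    omega
  have heq := Submodule.eq_of_le_of_finrank_eq hle hfr
  have hcol : ∀ j, ∃ v : Fin 2 → ℝ, A.mulVec v = fun r => (cx x y * A) r j := by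
    intro j
    have h3 : (fun r => (cx x y * A) r j) ∈ LinearMap.range A.mulVecLin := by
      rw [heq, LinearMap.mem_ker, Matrix.mulVecLin_apply]
      funext s
      have := congrFun (congrFun hJ s) j
      simpa [Matrix.mul_apply (M := A.transpose * sk x), Matrix.mulVec, dotProduct] using this
    obtain ⟨v, hv⟩ := h3
    exact ⟨v, hv⟩
  choose v hv using hcol
  refine ⟨Matrix.of fun s j => v j s, ?_⟩
  ext r j
  have h3 := congrFun (hv j) r
  rw [← h3]
  rfl

include hx hy hxy in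
/-- **The complex structure.** -/
theorem complex {k : ℕ} (A : Fin k → Matrix (Fin 4) (Fin 2) ℝ) (h1 : ∀ i, B6 x (pw (A i)) = 0)
    (h2 : ∀ i, B6 y (pw (A i)) = 0) {u : Fin 6 → ℝ} (hux : B6 u x = 0) (huy : B6 u y = 0)
    (huu : 0 ≤ B6 u u) (hu : ∀ i, 0 < B6 u (pw (A i))) :
    ∃ J : Matrix (Fin 4) (Fin 4) ℝ, J * J = -1 ∧
      ∀ i, ∃ c : Matrix (Fin 2) (Fin 2) ℝ, J * A i = A i * c ∧ 0 < c 1 0 := by
  have hne : ∀ i, pw (A i) ≠ 0 := by
    intro i h
    have := hu i
    rw [h, map_zero] at this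
    exact lt_irrefl _ this
  choose c hc using fun i => invariant hx (hne i) (h1 i) (h2 i)
  -- the value of the form
  have hval : ∀ i, (fun r => A i r 0) ⬝ᵥ (sk u).mulVec ((cx x y).mulVec fun r => A i r 0) =
      B6 u (pw (A i)) * c i 1 0 := by
    intro i
    have e1 : ((A i).transpose * sk u * (cx x y * A i)) 0 0 = B6 u (pw (A i)) * c i 1 0 := by
      rw [hc i, ← Matrix.mul_assoc, form_pw, Matrix.smul_mul, Matrix.smul_apply, smul_eq_mul]
      congr 1
      simp [Matrix.mul_apply, Fin.sum_univ_two]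
    rw [← e1, Matrix.mul_assoc]
    rfl
  have hc0 : ∀ i, c i 1 0 ≠ 0 := by
    intro i h0
    have e1 : ∀ r, (cx x y * A i) r 0 = A i r 0 * c i 0 0 := by
      intro r
      rw [hc i, Matrix.mul_apply, Fin.sum_univ_two, h0, mul_zero, add_zero]
    have e2 : ∀ r, (cx x y * (cx x y * A i)) r 0 = A i r 0 * c i 0 0 * c i 0 0 := by
      intro r
      rw [Matrix.mul_apply]
      simp only [e1]
      rw [← e1 r, Matrix.mul_apply, Finset.sum_mul]
      exact Finset.sum_congr rfl fun s _ => by ring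
    have e3 : ∀ r, A i r 0 = 0 := by
      intro r
      have e4 := e2 r
      rw [← Matrix.mul_assoc, cx_sq hx hy hxy, Matrix.neg_mul, Matrix.one_mul, Matrix.neg_apply] at e4
      have e5 : A i r 0 * (1 + c i 0 0 ^ 2) = 0 := by linear_combination -e4
      exact (mul_eq_zero.mp e5).resolve_right (by positivity)
    apply hne i
    funext j
    fin_cases j <;> simp [pw, e3]
  have hsign : ∀ i l, 0 < c i 1 0 * c l 1 0 := by
    intro i l
    have h3 := hodge hx hy hxy hux huy huu (fun r => A i r 0) (fun r => A l r 0)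
    rw [hval, hval] at h3
    have h4 : 0 < B6 u (pw (A i)) * B6 u (pw (A l)) := mul_pos (hu i) (hu l)
    have h5 : B6 u (pw (A i)) * c i 1 0 * (B6 u (pw (A l)) * c l 1 0) =
        (B6 u (pw (A i)) * B6 u (pw (A l))) * (c i 1 0 * c l 1 0) := by ring
    rw [h5] at h3
    have h6 : 0 ≤ c i 1 0 * c l 1 0 := nonneg_of_mul_nonneg_right h3 h4
    exact lt_of_le_of_ne h6 (mul_ne_zero (hc0 i) (hc0 l)).symm
  by_cases hpos : ∀ i, 0 < c i 1 0
  · exact ⟨cx x y, cx_sq hx hy hxy, fun i => ⟨c i, hc i, hpos i⟩⟩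
  · push Not at hpos
    obtain ⟨i0, hi0⟩ := hpos
    have hi1 : c i0 1 0 < 0 := lt_of_le_of_ne hi0 (hc0 i0)
    refine ⟨-cx x y, ?_, fun i => ⟨-c i, ?_, ?_⟩⟩
    · rw [Matrix.neg_mul, Matrix.mul_neg, neg_neg, cx_sq hx hy hxy]
    · rw [Matrix.neg_mul, hc i, Matrix.mul_neg]
    · rw [Matrix.neg_apply]
      have h7 := neg_of_mul_pos_right (hsign i0 i) hi1.le
      linarith

end

end Pool.Agent.Helper26.TOR
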