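import Pool.Agent.Helper26.TOR.Arr
import Pool.Agent.Helper26.TOR.Cy

/-!
The four-torus: a map from the two-torus is given on `H_1` by an integer matrix with four rows and two
columns, the intersection number of two such tori is a four by four determinant.
-/

set_option autoImplicit false

open Finset

namespace Pool.Agent.Helper26.TOR

/-- intersection number in `T⁴` of two tori with the matrices `A`, `A'` on `H_1` -/
def inter (A A' : Matrix (Fin 4) (Fin 2) ℤ) : ℤ :=
  Matrix.det !![A 0 0, A 0 1, A' 0 0, A' 0 1;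
                A 1 0, A 1 1, A' 1 0, A' 1 1;
                A 2 0, A 2 1, A' 2 0, A' 2 1;
                A 3 0, A 3 1, A' 3 0, A' 3 1]

/-- the real matrix -/
def toR (A : Matrix (Fin 4) (Fin 2) ℤ) : Matrix (Fin 4) (Fin 2) ℝ := A.map (Int.cast : ℤ → ℝ)

private lemma B6_pw (A A' : Matrix (Fin 4) (Fin 2) ℤ) : B6 (pw (toR A)) (pw (toR A')) = (inter A A' : ℝ) := by
  rw [B6_apply]
  unfold inter
  rw [Matrix.det_succ_row_zero]
  simp [Fin.sum_univ_succ, Matrix.det_fin_three, Matrix.submatrix_apply, Fin.succAbove, pw, toR]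
  ring

variable {k m : ℕ}

private lemma isArr_T4 (S : Fin m → Finset (Fin k)) (A : Fin k → Matrix (Fin 4) (Fin 2) ℤ)
    (hA : ∀ i j, i ≠ j → inter (A i) (A j) = num S i j) :
    IsArr B6 0 S (fun _ => 1) (fun i => pw (toR (A i))) := by
  have h0 : ∀ i, B6 (pw (toR (A i))) (pw (toR (A i))) = 0 := by
    intro i
    rw [B6_apply]
    simp only [pw]
    simp
    ring
  refine ⟨fun i => (h0 i).le, fun i => ?_, fun i j hij => ?_⟩
  · rw [h0]
    simp
  · rw [B6_pw, hA i j hij]
    simp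

private lemma B6_neg (U : Submodule ℝ (Fin 6 → ℝ)) : NegLE B6 U 3 := by
  intro W _ hW
  refine B6_semi W fun x hx => ?_
  by_cases h : x = 0
  · rw [h]
    simp
  · exact (hW x hx h).le

/-- equality for the four-torus -/
theorem T4_eq (S : Fin m → Finset (Fin k)) (A : Fin k → Matrix (Fin 4) (Fin 2) ℤ)
    (hA : ∀ i j, i ≠ j → inter (A i) (A j) = num S i j) (Bl : Finset (Fin m))
    (hBl : ∀ p ∉ Bl, (S p).card = 2) (w : Fin k → ℝ) (hw : ∀ i, 0 < w i)
    (hk : 0 < k) (hd : ∀ i, ∃ j, j ≠ i ∧ 0 < num S i j)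
    (heq : 3 * mass S Bl w ≤ ∑ p, ((∑ i ∈ S p, w i) ^ 2 - ∑ i ∈ S p, w i ^ 2)) :
    ∃ J : Matrix (Fin 4) (Fin 4) ℝ, J * J = -1 ∧
      ∀ i, ∃ c : Matrix (Fin 2) (Fin 2) ℝ, J * toR (A i) = toR (A i) * c ∧ 0 < c 1 0 := by
  obtain ⟨hr, W, hW, hneg, h3⟩ := index_equality B6_symm (N := 3) (by norm_num) (B6_neg _)
    (isArr_T4 S A hA) Bl hBl w hw hk (deg_pos hd) (by
      push_cast
      exact heq)
  have h0 : ∀ i, B6 (pw (toR (A i))) (pw (toR (A i))) = 0 := by
    intro i
    rw [B6_apply]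
    simp only [pw]
    simp
    ring
  have hii : ∀ i, inter (A i) (A i) = 0 := by
    intro i
    have h := h0 i
    rw [B6_pw] at h
    exact_mod_cast h
  have hoff : offDiag B6 (fun i => pw (toR (A i))) =
      Matrix.of fun i j => B6 (pw (toR (A i))) (pw (toR (A j))) := by
    ext i j
    unfold offDiag
    rw [Matrix.of_apply, Matrix.of_apply]
    split_ifs with hij
    · rw [← hij, h0]
    · rfl
  rw [hoff] at hr
  have hnn : ∀ i j, (0 : ℝ) ≤ inter (A i) (A j) := by
    intro i j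
    by_cases hij : i = j
    · rw [← hij, hii]
      simp
    · rw [hA i j hij]
      exact_mod_cast Nat.zero_le _
  obtain ⟨x, y, hx1, hy1, hx, hy, hxy⟩ := plane hW hneg h3 hr
  have hu1 : ∀ v, B6 (∑ j, pw (toR (A j))) v = ∑ j, B6 (pw (toR (A j))) v := by
    intro v
    rw [map_sum B6, LinearMap.sum_apply]
  refine complex hx hy hxy (fun i => toR (A i)) hx1 hy1 (u := ∑ j, pw (toR (A j))) ?_ ?_ ?_ ?_
  · rw [hu1]
    exact Finset.sum_eq_zero fun j _ => by rw [B6_symm]; exact hx1 j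
  · rw [hu1]
    exact Finset.sum_eq_zero fun j _ => by rw [B6_symm]; exact hy1 j
  · rw [hu1]
    refine Finset.sum_nonneg fun j _ => ?_
    rw [map_sum]
    refine Finset.sum_nonneg fun l _ => ?_
    rw [B6_pw]
    exact hnn j l
  · intro i
    rw [hu1]
    obtain ⟨j, hij, hj⟩ := hd i
    refine Finset.sum_pos' (fun l _ => by rw [B6_pw]; exact hnn l i) ⟨j, Finset.mem_univ j, ?_⟩
    rw [B6_symm, B6_pw, hA i j hij.symm]
    exact_mod_cast hj

end Pool.Agent.Helper26.TOR
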