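import Pool.Agent.Helper26.TOR.Lin

/-!
Arrangements of surfaces of nonpositive square in a closed symplectic four-manifold and the Chern numbers of
the covers branched along them.
-/

set_option autoImplicit false

open Finset

namespace Pool.Agent.Helper26.TOR

variable {k m : ℕ}

/-- The number of common points of the surfaces `i` and `j`, where `S p` is the set of the surfaces
through the point `p`. -/
def num (S : Fin m → Finset (Fin k)) (i j : Fin k) : ℕ := (univ.filter fun p => i ∈ S p ∧ j ∈ S p).card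

/-- the number of points on the surface `i` -/
def deg (S : Fin m → Finset (Fin k)) (i : Fin k) : ℕ := (univ.filter fun p => i ∈ S p).card

/-- The negative index of the form on the subspace `U` is at most `N`: subspaces of `U` on which the
form is negative definite have dimension at most `N`. -/
def NegLE {V : Type} [AddCommGroup V] [Module ℝ V] (B : V →ₗ[ℝ] V →ₗ[ℝ] ℝ) (U : Submodule ℝ V) (N : ℕ) :
    Prop :=
  ∀ W : Submodule ℝ V, W ≤ U → (∀ x ∈ W, x ≠ 0 → B x x < 0) → Module.finrank ℝ W ≤ N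

/-- `V = H_2(X; ℝ)`, `B` is the intersection form, `K` the canonical class. The `t i` are the classes of
surfaces of genus `g i` and nonpositive square, for which adjunction holds, and which meet pairwise
positively and transversally, with the incidences `S`. -/
structure IsArr {V : Type} [AddCommGroup V] [Module ℝ V] (B : V →ₗ[ℝ] V →ₗ[ℝ] ℝ) (K : V)
    (S : Fin m → Finset (Fin k)) (g : Fin k → ℕ) (t : Fin k → V) : Prop where
  sq : ∀ i, B (t i) (t i) ≤ 0
  adj : ∀ i, B K (t i) + B (t i) (t i) = 2 * g i - 2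
  inter : ∀ i j, i ≠ j → B (t i) (t j) = num S i j

/-- `c_2` of the orbifold, `e = e(X)`: the sum over the strata of Euler number times product of
`1 - weight`; the points of `Bl` are blown up, `z p` is the weight of the exceptional sphere over `p`. -/
noncomputable def cTwo (S : Fin m → Finset (Fin k)) (e : ℝ) (g : Fin k → ℕ) (Bl : Finset (Fin m)) (w : Fin k → ℝ)
    (z : Fin m → ℝ) : ℝ :=
  (e + ∑ i, (2 * (g i : ℝ) - 2) + ∑ p, (((S p).card : ℝ) - 1)) +
    ∑ i, (2 - 2 * (g i : ℝ) - deg S i) * (1 - w i) +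
    ∑ p ∈ univ \ Bl, ∏ i ∈ S p, (1 - w i) +
    ∑ p ∈ Bl, ((2 - ((S p).card : ℝ)) * (1 - z p) + ∑ i ∈ S p, (1 - w i) * (1 - z p))

/-- `c_1²` of the orbifold: the square of `K + ∑ w_i C_i + ∑ (1 + z_p - s_p) E_p`, where `q` is the
square of `K + ∑ w_i C_i` in `X` and `s_p` is the sum of the `w_i` over the surfaces through `p`. -/
noncomputable def cOneSq (S : Fin m → Finset (Fin k)) (q : ℝ) (Bl : Finset (Fin m)) (w : Fin k → ℝ) (z : Fin m → ℝ) : ℝ :=
  q - ∑ p ∈ Bl, (1 + z p - ∑ i ∈ S p, w i) ^ 2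

/-- the sum of `(z_p + s_p / 2 - 2)²` over the blown up points -/
noncomputable def rest (S : Fin m → Finset (Fin k)) (Bl : Finset (Fin m)) (w : Fin k → ℝ) (z : Fin m → ℝ) : ℝ :=
  ∑ p ∈ Bl, (z p + (∑ i ∈ S p, w i) / 2 - 2) ^ 2

/-- the mass: `∑ w_i²` over the surfaces through `p` for a blown up point, `2 w_i w_j` for the others -/
noncomputable def mass (S : Fin m → Finset (Fin k)) (Bl : Finset (Fin m)) (w : Fin k → ℝ) : ℝ :=
  ∑ p ∈ Bl, ∑ i ∈ S p, w i ^ 2 + ∑ p ∈ univ \ Bl, 2 * ∏ i ∈ S p, w i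

/-- contribution of a point to the diagonal -/
private noncomputable def ev (S : Fin m → Finset (Fin k)) (Bl : Finset (Fin m)) (w : Fin k → ℝ) (p : Fin m) (i : Fin k) : ℝ :=
  if i ∈ S p then (if p ∈ Bl then w i ^ 2 else ∏ j ∈ S p, w j) else 0

private lemma num_eq (S : Fin m → Finset (Fin k)) (i j : Fin k) :
    (num S i j : ℝ) = ∑ p, if i ∈ S p ∧ j ∈ S p then (1 : ℝ) else 0 := by
  unfold num
  rw [Finset.sum_boole]

private lemma deg_eq (S : Fin m → Finset (Fin k)) (i : Fin k) :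
    (deg S i : ℝ) = ∑ p, if i ∈ S p then (1 : ℝ) else 0 := by
  unfold deg
  rw [Finset.sum_boole]

/-- the off diagonal part of the square -/
private lemma cross (s : Finset (Fin k)) (y : Fin k → ℝ) :
    ∑ i, ∑ j, (if i = j then 0 else if i ∈ s ∧ j ∈ s then y i * y j else 0) =
      (∑ i ∈ s, y i) ^ 2 - ∑ i ∈ s, y i ^ 2 := by
  have h1 : ∀ i j : Fin k, (if i = j then (0 : ℝ) else if i ∈ s ∧ j ∈ s then y i * y j else 0) =
      (if i ∈ s then y i else 0) * (if j ∈ s then y j else 0) -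
        if i = j then (if i ∈ s then y i ^ 2 else 0) else 0 := by
    intro i j
    by_cases hij : i = j
    · subst hij
      by_cases hi : i ∈ s
      · simp [hi, sq]
      · simp [hi]
    · by_cases hi : i ∈ s <;> by_cases hj : j ∈ s <;> simp [hij, hi, hj]
  simp only [h1, Finset.sum_sub_distrib]
  have h2 : ∑ i, ∑ j, (if i ∈ s then y i else 0) * (if j ∈ s then y j else 0) = (∑ i ∈ s, y i) ^ 2 := by
    rw [sq, ← Finset.sum_mul_sum]
    simp
  have h3 : ∑ i : Fin k, ∑ j : Fin k, (if i = j then (if i ∈ s then y i ^ 2 else 0) else 0) =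
      ∑ i ∈ s, y i ^ 2 := by
    simp
  rw [h2, h3]

variable {V : Type} [AddCommGroup V] [Module ℝ V] {K : V} {g : Fin k → ℕ}

/-- the intersection matrix without its diagonal -/
noncomputable def offDiag (B : V →ₗ[ℝ] V →ₗ[ℝ] ℝ) (t : Fin k → V) : Matrix (Fin k) (Fin k) ℝ :=
  Matrix.of fun i j => if i = j then 0 else B (t i) (t j)

/-- the weighted Gram matrix without its diagonal -/
private noncomputable def hh (B : V →ₗ[ℝ] V →ₗ[ℝ] ℝ) (t : Fin k → V) (w : Fin k → ℝ) (i j : Fin k) : ℝ :=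
  if i = j then 0 else w i * w j * B (t i) (t j)

private lemma hh_eq {B : V →ₗ[ℝ] V →ₗ[ℝ] ℝ} {S : Fin m → Finset (Fin k)} {t : Fin k → V} (h : IsArr B K S g t)
    (w : Fin k → ℝ) (i j : Fin k) :
    hh B t w i j = ∑ p, (if i = j then 0 else if i ∈ S p ∧ j ∈ S p then w i * w j else 0) := by
  unfold hh
  by_cases hij : i = j
  · subst hij
    simp
  · rw [if_neg hij, h.inter i j hij, num_eq, Finset.mul_sum]
    refine Finset.sum_congr rfl fun p _ => ?_
    simp [hij]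

private lemma qf_hh {B : V →ₗ[ℝ] V →ₗ[ℝ] ℝ} {S : Fin m → Finset (Fin k)} {t : Fin k → V} (h : IsArr B K S g t)
    (w x : Fin k → ℝ) :
    qf (hh B t w) x = ∑ p, ((∑ i ∈ S p, x i * w i) ^ 2 - ∑ i ∈ S p, (x i * w i) ^ 2) := by
  unfold qf
  have e1 : ∀ i j, x i * hh B t w i j * x j =
      ∑ p, (if i = j then 0 else if i ∈ S p ∧ j ∈ S p then (x i * w i) * (x j * w j) else 0) := by
    intro i j
    rw [hh_eq h, Finset.mul_sum, Finset.sum_mul]
    refine Finset.sum_congr rfl fun p _ => ?_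
    split_ifs <;> ring
  simp only [e1]
  rw [Finset.sum_congr rfl fun i _ => Finset.sum_comm, Finset.sum_comm]
  exact Finset.sum_congr rfl fun p _ => cross (S p) fun i => x i * w i

private lemma sum_hh {B : V →ₗ[ℝ] V →ₗ[ℝ] ℝ} {S : Fin m → Finset (Fin k)} {t : Fin k → V} (h : IsArr B K S g t)
    (w : Fin k → ℝ) :
    ∑ i, ∑ j, hh B t w i j = ∑ p, ((∑ i ∈ S p, w i) ^ 2 - ∑ i ∈ S p, w i ^ 2) := by
  have h1 := qf_hh h w (fun _ => 1)
  unfold qf at h1
  simpa using h1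

private lemma sq_hh (B : V →ₗ[ℝ] V →ₗ[ℝ] ℝ) (t : Fin k → V) (w : Fin k → ℝ) :
    B (∑ i, w i • t i) (∑ i, w i • t i) =
      ∑ i, ∑ j, hh B t w i j + ∑ i, w i ^ 2 * B (t i) (t i) := by
  have e1 : B (∑ i, w i • t i) (∑ i, w i • t i) = ∑ i, ∑ j, w i * w j * B (t i) (t j) := by
    simp only [map_sum, map_smul, LinearMap.sum_apply, LinearMap.smul_apply, smul_eq_mul]
    rw [Finset.sum_comm]
    refine Finset.sum_congr rfl fun i _ => ?_
    rw [Finset.mul_sum]
    refine Finset.sum_congr rfl fun j _ => ?_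
    ring
  rw [e1, ← Finset.sum_add_distrib]
  refine Finset.sum_congr rfl fun i _ => ?_
  have e2 : ∀ j, w i * w j * B (t i) (t j) =
      hh B t w i j + if i = j then w i ^ 2 * B (t i) (t i) else 0 := by
    intro j
    unfold hh
    by_cases hij : i = j
    · subst hij
      simp [sq]
    · simp [hij]
  simp only [e2]
  rw [Finset.sum_add_distrib]
  simp

private lemma sum_ev (S : Fin m → Finset (Fin k)) (Bl : Finset (Fin m)) (hBl : ∀ p ∉ Bl, (S p).card = 2) (w : Fin k → ℝ) :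
    ∑ i, ∑ p, ev S Bl w p i = mass S Bl w := by
  rw [Finset.sum_comm]
  unfold mass
  have e : ∀ p, ∑ i, ev S Bl w p i =
      if p ∈ Bl then ∑ i ∈ S p, w i ^ 2 else 2 * ∏ i ∈ S p, w i := by
    intro p
    unfold ev
    by_cases hp : p ∈ Bl
    · simp [hp]
    · have := hBl p hp
      simp [hp, this]
  simp only [e]
  rw [← Finset.sum_add_sum_compl Bl]
  congr 1
  · refine Finset.sum_congr rfl fun p hp => ?_
    simp [hp]
  · rw [Finset.compl_eq_univ_sdiff]
    refine Finset.sum_congr rfl fun p hp => ?_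
    have : p ∉ Bl := (Finset.mem_sdiff.mp hp).2
    simp [this]

private lemma ev_nonneg {S : Fin m → Finset (Fin k)} {Bl : Finset (Fin m)} {w : Fin k → ℝ} (hw : ∀ i, 0 ≤ w i)
    (p : Fin m) (i : Fin k) : 0 ≤ ev S Bl w p i := by
  unfold ev
  split_ifs
  · exact sq_nonneg _
  · exact Finset.prod_nonneg fun j _ => hw j
  · exact le_rfl

private lemma psd_hh {B : V →ₗ[ℝ] V →ₗ[ℝ] ℝ} {S : Fin m → Finset (Fin k)} {t : Fin k → V} (h : IsArr B K S g t)
    (Bl : Finset (Fin m)) (hBl : ∀ p ∉ Bl, (S p).card = 2) (w : Fin k → ℝ) (hw : ∀ i, 0 ≤ w i)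
    (x : Fin k → ℝ) : 0 ≤ qf (hh B t w) x + ∑ i, (∑ p, ev S Bl w p i) * x i ^ 2 := by
  rw [qf_hh h]
  have e1 : ∑ i, (∑ p, ev S Bl w p i) * x i ^ 2 = ∑ p, ∑ i, ev S Bl w p i * x i ^ 2 := by
    rw [Finset.sum_comm]
    exact Finset.sum_congr rfl fun i _ => Finset.sum_mul _ _ _
  rw [e1, ← Finset.sum_add_distrib]
  refine Finset.sum_nonneg fun p _ => ?_
  by_cases hp : p ∈ Bl
  · have e2 : ∑ i, ev S Bl w p i * x i ^ 2 = ∑ i ∈ S p, (x i * w i) ^ 2 := by
      unfold ev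
      simp only [hp, if_true, ite_mul, zero_mul, Finset.sum_ite_mem, Finset.univ_inter]
      refine Finset.sum_congr rfl fun i _ => ?_
      ring
    rw [e2]
    nlinarith [sq_nonneg (∑ i ∈ S p, x i * w i)]
  · obtain ⟨a, b, hab, hS⟩ := Finset.card_eq_two.mp (hBl p hp)
    have e2 : ∑ i, ev S Bl w p i * x i ^ 2 = w a * w b * (x a ^ 2 + x b ^ 2) := by
      unfold ev
      simp only [hp, if_false, ite_mul, zero_mul, Finset.sum_ite_mem, Finset.univ_inter]
      rw [hS, Finset.prod_pair hab, Finset.sum_pair hab]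
      ring
    rw [e2, hS, Finset.sum_pair hab, Finset.sum_pair hab]
    have h1 : 0 ≤ w a * w b * (x a + x b) ^ 2 := by
      have := hw a
      have := hw b
      positivity
    nlinarith [h1]

private lemma transport (B : V →ₗ[ℝ] V →ₗ[ℝ] ℝ) (t : Fin k → V) (ht : ∀ i, B (t i) (t i) ≤ 0)
    (w : Fin k → ℝ) (W : Submodule ℝ (Fin k → ℝ)) (hW : ∀ x ∈ W, x ≠ 0 → qf (hh B t w) x < 0) :
    ∃ W' : Submodule ℝ V, W' ≤ Submodule.span ℝ (Set.range t) ∧ (∀ x ∈ W', x ≠ 0 → B x x < 0) ∧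
      Module.finrank ℝ W' = Module.finrank ℝ W := by
  let Φ : (Fin k → ℝ) →ₗ[ℝ] V :=
    { toFun := fun x => ∑ i, (x i * w i) • t i
      map_add' := by
        intro x y
        simp only [Pi.add_apply, add_mul, add_smul, Finset.sum_add_distrib]
      map_smul' := by
        intro r x
        simp only [Pi.smul_apply, smul_eq_mul, RingHom.id_apply, Finset.smul_sum, smul_smul, mul_assoc] }
  have hΦ : ∀ x, B (Φ x) (Φ x) ≤ qf (hh B t w) x := by
    intro x
    change B (∑ i, (x i * w i) • t i) (∑ i, (x i * w i) • t i) ≤ _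
    rw [sq_hh B t (fun i => x i * w i)]
    have h1 : ∑ i, (x i * w i) ^ 2 * B (t i) (t i) ≤ 0 :=
      Finset.sum_nonpos fun i _ => mul_nonpos_of_nonneg_of_nonpos (sq_nonneg _) (ht i)
    have h2 : ∑ i, ∑ j, hh B t (fun i => x i * w i) i j = qf (hh B t w) x := by
      unfold hh qf
      refine Finset.sum_congr rfl fun i _ => Finset.sum_congr rfl fun j _ => ?_
      by_cases hij : i = j
      · simp [hij]
      · simp only [hij, if_false]
        ring
    linarith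
  have hinj : Function.Injective (Φ.domRestrict W) := by
    rw [← LinearMap.ker_eq_bot, LinearMap.ker_eq_bot']
    intro x hx
    by_contra hne
    have h1 := hW x.1 x.2 (fun h0 => hne (Subtype.ext h0))
    have h2 : Φ x.1 = 0 := hx
    have h3 := (hΦ x.1).trans_lt h1
    rw [h2] at h3
    simp at h3
  refine ⟨LinearMap.range (Φ.domRestrict W), ?_, ?_, LinearMap.finrank_range_of_inj hinj⟩
  · rintro y ⟨x, rfl⟩
    change ∑ i, (x.1 i * w i) • t i ∈ Submodule.span ℝ (Set.range t)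
    exact Submodule.sum_mem _ fun i _ =>
      Submodule.smul_mem _ _ (Submodule.subset_span (Set.mem_range_self i))
  · rintro y ⟨x, rfl⟩ hy
    have h4 : (Φ.domRestrict W) x = Φ x.1 := rfl
    rw [h4]
    refine (hΦ x.1).trans_lt (hW x.1 x.2 ?_)
    rintro h0
    apply hy
    rw [h4, h0, map_zero]

private lemma neg_hh {B : V →ₗ[ℝ] V →ₗ[ℝ] ℝ} {N : ℕ} {t : Fin k → V}
    (hN : NegLE B (Submodule.span ℝ (Set.range t)) N) (ht : ∀ i, B (t i) (t i) ≤ 0) (w : Fin k → ℝ)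
    (W : Submodule ℝ (Fin k → ℝ)) (hW : ∀ x ∈ W, x ≠ 0 → qf (hh B t w) x < 0) :
    Module.finrank ℝ W ≤ N := by
  obtain ⟨W', h1, h2, h3⟩ := transport B t ht w W hW
  rw [← h3]
  exact hN W' h1 h2

private lemma hh_symm {B : V →ₗ[ℝ] V →ₗ[ℝ] ℝ} (hB : ∀ x y, B x y = B y x) (t : Fin k → V)
    (w : Fin k → ℝ) (i j : Fin k) : hh B t w i j = hh B t w j i := by
  unfold hh
  rw [hB (t i) (t j), mul_comm (w i)]
  by_cases hij : i = j
  · rw [if_pos hij, if_pos hij.symm]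
  · rw [if_neg hij, if_neg fun h => hij h.symm]

private lemma hh_diag (B : V →ₗ[ℝ] V →ₗ[ℝ] ℝ) (t : Fin k → V)
    (w : Fin k → ℝ) (i : Fin k) : hh B t w i i = 0 := by
  unfold hh
  rw [if_pos rfl]

/-- the index inequality for an arrangement -/
theorem index_ineq {B : V →ₗ[ℝ] V →ₗ[ℝ] ℝ} (hB : ∀ x y, B x y = B y x) {N : ℕ}
    {S : Fin m → Finset (Fin k)} {t : Fin k → V} (hN : NegLE B (Submodule.span ℝ (Set.range t)) N)
    (h : IsArr B K S g t) (Bl : Finset (Fin m))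
    (hBl : ∀ p ∉ Bl, (S p).card = 2) (w : Fin k → ℝ) (hw : ∀ i, 0 ≤ w i) :
    ∑ p, ((∑ i ∈ S p, w i) ^ 2 - ∑ i ∈ S p, w i ^ 2) ≤ N * mass S Bl w := by
  rw [← sum_hh h, ← sum_ev S Bl hBl]
  exact index_bound (hh B t w) (hh_symm hB t w) (hh_diag B t w) (fun i => ∑ p, ev S Bl w p i)
    (fun i => Finset.sum_nonneg fun p _ => ev_nonneg hw p i) (psd_hh h Bl hBl w hw) N
    (neg_hh hN h.sq w)

/-- a surface which meets another one contains a point -/
lemma deg_pos {S : Fin m → Finset (Fin k)} (hd : ∀ i, ∃ j, j ≠ i ∧ 0 < num S i j) (i : Fin k) :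
    0 < deg S i := by
  obtain ⟨j, _, hj⟩ := hd i
  obtain ⟨p, hp⟩ := Finset.card_pos.mp hj
  exact Finset.card_pos.mpr ⟨p, Finset.mem_filter.mpr ⟨Finset.mem_univ _, (Finset.mem_filter.mp hp).2.1⟩⟩

/-- the case of equality -/
theorem index_equality {B : V →ₗ[ℝ] V →ₗ[ℝ] ℝ} (hB : ∀ x y, B x y = B y x) {N : ℕ} (hN1 : 1 ≤ N)
    {S : Fin m → Finset (Fin k)} {t : Fin k → V} (hN : NegLE B (Submodule.span ℝ (Set.range t)) N)
    (h : IsArr B K S g t) (Bl : Finset (Fin m))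
    (hBl : ∀ p ∉ Bl, (S p).card = 2) (w : Fin k → ℝ) (hw : ∀ i, 0 < w i) (hk : 0 < k)
    (hd : ∀ i, 0 < deg S i)
    (heq : N * mass S Bl w ≤ ∑ p, ((∑ i ∈ S p, w i) ^ 2 - ∑ i ∈ S p, w i ^ 2)) :
    (offDiag B t).rank = N + 1 ∧
      ∃ W : Submodule ℝ V, W ≤ Submodule.span ℝ (Set.range t) ∧ (∀ x ∈ W, x ≠ 0 → B x x < 0) ∧
        Module.finrank ℝ W = N := by
  have : Nonempty (Fin k) := ⟨⟨0, hk⟩⟩
  have heq' : ∑ i, ∑ j, hh B t w i j = N * ∑ i, ∑ p, ev S Bl w p i := by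
    rw [sum_hh h, sum_ev S Bl hBl]
    exact le_antisymm (index_ineq hB hN h Bl hBl w fun i => (hw i).le) heq
  have hE : ∀ i, 0 < ∑ p, ev S Bl w p i := by
    intro i
    have h1 := hd i
    unfold deg at h1
    obtain ⟨p, hp⟩ := Finset.card_pos.mp h1
    have hp2 : i ∈ S p := (Finset.mem_filter.mp hp).2
    refine Finset.sum_pos' (fun p _ => ev_nonneg (fun i => (hw i).le) p i) ⟨p, Finset.mem_univ _, ?_⟩
    unfold ev
    rw [if_pos hp2]
    split_ifs
    · have := hw i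
      positivity
    · exact Finset.prod_pos fun j _ => hw j
  obtain ⟨h1, W, hW1, hW2⟩ := index_eq (hh B t w) (hh_symm hB t w) (hh_diag B t w)
    (fun i => ∑ p, ev S Bl w p i) hE (psd_hh h Bl hBl w fun i => (hw i).le) N hN1 (neg_hh hN h.sq w) heq'
  refine ⟨?_, ?_⟩
  swap
  · obtain ⟨W', h2, h3, h4⟩ := transport B t h.sq w W hW1
    exact ⟨W', h2, h3, h4.trans hW2⟩
  rw [← h1]
  have hm : (Matrix.of (hh B t w)) =
      Matrix.diagonal w * offDiag B t * Matrix.diagonal w := by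
    ext i j
    rw [Matrix.mul_diagonal, Matrix.diagonal_mul]
    simp only [Matrix.of_apply, hh, offDiag]
    split_ifs <;> ring
  have hu : IsUnit (Matrix.diagonal w).det := by
    rw [Matrix.det_diagonal, isUnit_iff_ne_zero, Finset.prod_ne_zero_iff]
    intro i _
    exact (hw i).ne'
  rw [hm, Matrix.rank_mul_eq_left_of_isUnit_det _ _ hu, Matrix.rank_mul_eq_right_of_isUnit_det _ _ hu]

/-- the square of `K + ∑ w_i C_i` -/
private lemma sq_K {B : V →ₗ[ℝ] V →ₗ[ℝ] ℝ} (hB : ∀ x y, B x y = B y x) {S : Fin m → Finset (Fin k)} {t : Fin k → V}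
    (h : IsArr B K S g t) (w : Fin k → ℝ) :
    B (K + ∑ i, w i • t i) (K + ∑ i, w i • t i) =
      B K K + 2 * ∑ i, (2 * (g i : ℝ) - 2 - B (t i) (t i)) * w i + ∑ i, w i ^ 2 * B (t i) (t i) +
      ∑ p, ((∑ i ∈ S p, w i) ^ 2 - ∑ i ∈ S p, w i ^ 2) := by
  have e0 : ∀ i, B K (t i) = 2 * (g i : ℝ) - 2 - B (t i) (t i) := fun i => by
    have := h.adj i
    linarith
  have e1 : B K (∑ i, w i • t i) = ∑ i, (2 * (g i : ℝ) - 2 - B (t i) (t i)) * w i := by
    simp only [map_sum, map_smul, smul_eq_mul, e0]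
    exact Finset.sum_congr rfl fun i _ => mul_comm _ _
  have e2 : B (∑ i, w i • t i) K = ∑ i, (2 * (g i : ℝ) - 2 - B (t i) (t i)) * w i := by
    rw [hB, e1]
  rw [map_add B, LinearMap.add_apply, map_add, map_add, e1, e2, sq_hh, sum_hh h]
  ring

/-- the contribution of the surfaces -/
noncomputable def curv (B : V →ₗ[ℝ] V →ₗ[ℝ] ℝ) (g : Fin k → ℕ) (t : Fin k → V) (w : Fin k → ℝ) : ℝ :=
  ∑ i, w i * (2 * (g i : ℝ) - 2 + (2 - w i) * B (t i) (t i))

/-- the comparison of the Chern numbers, without the index -/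
theorem gap {B : V →ₗ[ℝ] V →ₗ[ℝ] ℝ} (hB : ∀ x y, B x y = B y x)
    {S : Fin m → Finset (Fin k)} {t : Fin k → V} (h : IsArr B K S g t) (e : ℝ) (Bl : Finset (Fin m))
    (hBl : ∀ p ∉ Bl, (S p).card = 2) (w : Fin k → ℝ) (z : Fin m → ℝ) :
    cOneSq S (B (K + ∑ i, w i • t i) (K + ∑ i, w i • t i)) Bl w z + (3 * e - B K K) +
      curv B g t w + rest S Bl w z +
      (3 * mass S Bl w - ∑ p, ((∑ i ∈ S p, w i) ^ 2 - ∑ i ∈ S p, w i ^ 2)) / 4 =
        3 * cTwo S e g Bl w z := by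
  have hdeg : ∑ i, (2 - 2 * (g i : ℝ) - deg S i) * (1 - w i) =
      ∑ i, (2 * (g i : ℝ) - 2) * w i - ∑ i, (2 * (g i : ℝ) - 2) +
        ∑ p, (∑ i ∈ S p, w i - (S p).card) := by
    have e1 : ∀ i, (2 - 2 * (g i : ℝ) - deg S i) * (1 - w i) =
        ((2 * (g i : ℝ) - 2) * w i - (2 * (g i : ℝ) - 2)) + ∑ p, if i ∈ S p then (w i - 1) else 0 := by
      intro i
      have e0 : (deg S i : ℝ) * (1 - w i) = -∑ p, if i ∈ S p then (w i - 1) else 0 := by
        rw [deg_eq, Finset.sum_mul, ← Finset.sum_neg_distrib]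
        refine Finset.sum_congr rfl fun p _ => ?_
        split_ifs <;> ring
      linear_combination -e0
    simp only [e1]
    rw [Finset.sum_add_distrib, Finset.sum_sub_distrib, Finset.sum_comm]
    congr 1
    refine Finset.sum_congr rfl fun p _ => ?_
    simp [Finset.sum_ite_mem, Finset.sum_sub_distrib]
  have hcurv : curv B g t w = ∑ i, (2 * (g i : ℝ) - 2) * w i + 2 * ∑ i, w i * B (t i) (t i) -
      ∑ i, w i ^ 2 * B (t i) (t i) := by
    unfold curv
    rw [Finset.mul_sum, ← Finset.sum_add_distrib, ← Finset.sum_sub_distrib]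
    exact Finset.sum_congr rfl fun i _ => by ring
  have hadj : ∑ i, (2 * (g i : ℝ) - 2 - B (t i) (t i)) * w i =
      ∑ i, (2 * (g i : ℝ) - 2) * w i - ∑ i, w i * B (t i) (t i) := by
    rw [← Finset.sum_sub_distrib]
    exact Finset.sum_congr rfl fun i _ => by ring
  have split : ∀ f : Fin m → ℝ, ∑ p, f p = ∑ p ∈ Bl, f p + ∑ p ∈ univ \ Bl, f p := by
    intro f
    rw [← Finset.compl_eq_univ_sdiff, Finset.sum_add_sum_compl]
  -- pointwise
  have hBlp : ∀ p ∈ Bl, ((∑ i ∈ S p, w i) ^ 2 - ∑ i ∈ S p, w i ^ 2) -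
      (1 + z p - ∑ i ∈ S p, w i) ^ 2 + (z p + (∑ i ∈ S p, w i) / 2 - 2) ^ 2 +
        (3 * ∑ i ∈ S p, w i ^ 2 - ((∑ i ∈ S p, w i) ^ 2 - ∑ i ∈ S p, w i ^ 2)) / 4 =
      3 * ((((S p).card : ℝ) - 1) + (∑ i ∈ S p, w i - (S p).card) +
        ((2 - ((S p).card : ℝ)) * (1 - z p) + ∑ i ∈ S p, (1 - w i) * (1 - z p))) := by
    intro p _
    have e1 : ∑ i ∈ S p, (1 - w i) * (1 - z p) = (((S p).card : ℝ) - ∑ i ∈ S p, w i) * (1 - z p) := by
      rw [← Finset.sum_mul, Finset.sum_sub_distrib]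
      simp
    rw [e1]
    ring
  have hnBl : ∀ p ∈ univ \ Bl, ((∑ i ∈ S p, w i) ^ 2 - ∑ i ∈ S p, w i ^ 2) +
      (3 * (2 * ∏ i ∈ S p, w i) - ((∑ i ∈ S p, w i) ^ 2 - ∑ i ∈ S p, w i ^ 2)) / 4 =
      3 * ((((S p).card : ℝ) - 1) + (∑ i ∈ S p, w i - (S p).card) + ∏ i ∈ S p, (1 - w i)) := by
    intro p hp
    have hp2 : p ∉ Bl := (Finset.mem_sdiff.mp hp).2
    obtain ⟨a, b, hab, hS⟩ := Finset.card_eq_two.mp (hBl p hp2)
    have hc := hBl p hp2
    rw [hc, hS, Finset.prod_pair hab, Finset.prod_pair hab, Finset.sum_pair hab, Finset.sum_pair hab]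
    push_cast
    ring
  have s1 := Finset.sum_congr rfl hBlp
  have s2 := Finset.sum_congr rfl hnBl
  simp only [Finset.sum_add_distrib, Finset.sum_sub_distrib, ← Finset.mul_sum, ← Finset.sum_div] at s1 s2
  rw [sq_K hB h, hcurv]
  unfold cOneSq cTwo mass rest
  rw [hdeg, hadj]
  rw [split (fun p => ((∑ i ∈ S p, w i) ^ 2 - ∑ i ∈ S p, w i ^ 2)),
    split (fun p => (((S p).card : ℝ) - 1)), split (fun p => (∑ i ∈ S p, w i - (S p).card))]
  simp only [Finset.sum_add_distrib, Finset.sum_sub_distrib, ← Finset.mul_sum]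
  linear_combination s1 + s2

/-- **General inequality.** -/
theorem main_ineq {B : V →ₗ[ℝ] V →ₗ[ℝ] ℝ} (hB : ∀ x y, B x y = B y x) {N : ℕ}
    {S : Fin m → Finset (Fin k)} {t : Fin k → V} (hN : NegLE B (Submodule.span ℝ (Set.range t)) N)
    (h : IsArr B K S g t) (e : ℝ) (Bl : Finset (Fin m))
    (hBl : ∀ p ∉ Bl, (S p).card = 2) (w : Fin k → ℝ) (hw : ∀ i, 0 ≤ w i) (z : Fin m → ℝ) :
    cOneSq S (B (K + ∑ i, w i • t i) (K + ∑ i, w i • t i)) Bl w z + (3 * e - B K K) +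
      curv B g t w + rest S Bl w z + (3 - N) / 4 * mass S Bl w ≤
        3 * cTwo S e g Bl w z := by
  have h1 := index_ineq hB hN h Bl hBl w hw
  have h2 := gap hB h e Bl hBl w z
  linarith

/-- equality in the general inequality is equality in the index inequality -/
theorem eq_index {B : V →ₗ[ℝ] V →ₗ[ℝ] ℝ} (hB : ∀ x y, B x y = B y x) {N : ℕ}
    {S : Fin m → Finset (Fin k)} {t : Fin k → V} (h : IsArr B K S g t) (e : ℝ) (Bl : Finset (Fin m))
    (hBl : ∀ p ∉ Bl, (S p).card = 2) (w : Fin k → ℝ) (z : Fin m → ℝ)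
    (heq : cOneSq S (B (K + ∑ i, w i • t i) (K + ∑ i, w i • t i)) Bl w z + (3 * e - B K K) +
      curv B g t w + rest S Bl w z + (3 - N) / 4 * mass S Bl w = 3 * cTwo S e g Bl w z) :
    N * mass S Bl w ≤ ∑ p, ((∑ i ∈ S p, w i) ^ 2 - ∑ i ∈ S p, w i ^ 2) := by
  have h2 := gap hB h e Bl hBl w z
  linarith

end Pool.Agent.Helper26.TOR
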