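import Mathlib

/-!
The quadratic form of signature `(3,3)` on the second exterior power of `ℝ⁴`: a positive definite plane
gives a complex structure on `ℝ⁴`.
-/

set_option autoImplicit false

open Finset

namespace Pool.Agent.Helper26.TOR

/-- the intersection form of `T⁴`, in the coordinates `01, 02, 03, 12, 13, 23` -/
noncomputable def B6 : (Fin 6 → ℝ) →ₗ[ℝ] (Fin 6 → ℝ) →ₗ[ℝ] ℝ :=
  LinearMap.mk₂ ℝ (fun x y => x 0 * y 5 - x 1 * y 4 + x 2 * y 3 + x 3 * y 2 - x 4 * y 1 + x 5 * y 0)
    (by intros; simp only [Pi.add_apply]; ring) (by intros; simp only [Pi.smul_apply, smul_eq_mul]; ring)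
    (by intros; simp only [Pi.add_apply]; ring) (by intros; simp only [Pi.smul_apply, smul_eq_mul]; ring)

lemma B6_apply (x y : Fin 6 → ℝ) :
    B6 x y = x 0 * y 5 - x 1 * y 4 + x 2 * y 3 + x 3 * y 2 - x 4 * y 1 + x 5 * y 0 := rfl

lemma B6_symm (x y : Fin 6 → ℝ) : B6 x y = B6 y x := by
  rw [B6_apply, B6_apply]
  ring

/-- negative semidefinite subspaces have dimension at most three -/
lemma B6_semi (W : Submodule ℝ (Fin 6 → ℝ)) (hW : ∀ x ∈ W, B6 x x ≤ 0) : Module.finrank ℝ W ≤ 3 := by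
  let Q : (Fin 6 → ℝ) →ₗ[ℝ] (Fin 3 → ℝ) :=
    { toFun := fun x => ![x 0 - x 5, x 1 + x 4, x 2 - x 3]
      map_add' := by
        intro x y
        ext i
        fin_cases i <;> simp <;> ring
      map_smul' := by
        intro r x
        ext i
        fin_cases i <;> simp <;> ring }
  have hinj : Function.Injective (Q.domRestrict W) := by
    rw [← LinearMap.ker_eq_bot, LinearMap.ker_eq_bot']
    intro x hx
    have h1 := hW x.1 x.2
    have h2 : Q x.1 = 0 := hx
    have a0 : x.1 0 - x.1 5 = 0 := congrFun h2 0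
    have a1 : x.1 1 + x.1 4 = 0 := congrFun h2 1
    have a2 : x.1 2 - x.1 3 = 0 := congrFun h2 2
    rw [B6_apply] at h1
    have b0 : x.1 5 = x.1 0 := by linarith
    have b1 : x.1 4 = -x.1 1 := by linarith
    have b2 : x.1 3 = x.1 2 := by linarith
    rw [b0, b1, b2] at h1
    have c0 : x.1 0 = 0 := by nlinarith [sq_nonneg (x.1 0), sq_nonneg (x.1 1), sq_nonneg (x.1 2)]
    have c1 : x.1 1 = 0 := by nlinarith [sq_nonneg (x.1 0), sq_nonneg (x.1 1), sq_nonneg (x.1 2)]
    have c2 : x.1 2 = 0 := by nlinarith [sq_nonneg (x.1 0), sq_nonneg (x.1 1), sq_nonneg (x.1 2)]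
    apply Subtype.ext
    funext i
    fin_cases i
    · exact c0
    · exact c1
    · exact c2
    · change x.1 3 = 0
      rw [b2, c2]
    · change x.1 4 = 0
      rw [b1, c1, neg_zero]
    · change x.1 5 = 0
      rw [b0, c0]
  have h := LinearMap.finrank_le_finrank_of_injective hinj
  simpa using h

variable {k : ℕ}

/-- orthogonality to the span -/
private lemma perp_span {t : Fin k → Fin 6 → ℝ} {x : Fin 6 → ℝ} (hx : ∀ i, B6 x (t i) = 0)
    {v : Fin 6 → ℝ} (hv : v ∈ Submodule.span ℝ (Set.range t)) : B6 x v = 0 := by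
  induction hv using Submodule.span_induction with
  | mem y hy =>
    obtain ⟨i, rfl⟩ := hy
    exact hx i
  | zero => exact map_zero _
  | add y z _ _ h1 h2 => rw [map_add, h1, h2, add_zero]
  | smul a y _ h1 => rw [map_smul, h1, smul_zero]

/-- if the span contains a negative definite subspace of dimension three, then its orthogonal complement
is positive definite -/
lemma perp_pos {t : Fin k → Fin 6 → ℝ} {W : Submodule ℝ (Fin 6 → ℝ)}
    (hW : W ≤ Submodule.span ℝ (Set.range t)) (hneg : ∀ x ∈ W, x ≠ 0 → B6 x x < 0)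
    (h3 : Module.finrank ℝ W = 3) {x : Fin 6 → ℝ} (hx : ∀ i, B6 x (t i) = 0) (hx0 : x ≠ 0) :
    0 < B6 x x := by
  by_contra hcon
  push Not at hcon
  have hxW : ∀ v ∈ W, B6 x v = 0 := fun v hv => perp_span hx (hW hv)
  have hsemi : ∀ z ∈ W ⊔ Submodule.span ℝ {x}, B6 z z ≤ 0 := by
    intro z hz
    obtain ⟨v, hv, y, hy, rfl⟩ := Submodule.mem_sup.mp hz
    obtain ⟨c, rfl⟩ := Submodule.mem_span_singleton.mp hy
    have e1 : B6 (v + c • x) (v + c • x) = B6 v v + c ^ 2 * B6 x x := by
      have e2 : B6 v x = 0 := by rw [B6_symm, hxW v hv]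
      rw [map_add B6, LinearMap.add_apply, map_add, map_add, map_smul B6, LinearMap.smul_apply,
        LinearMap.smul_apply, map_smul, map_smul, e2, hxW v hv]
      simp only [smul_eq_mul]
      ring
    rw [e1]
    have e3 : B6 v v ≤ 0 := by
      by_cases hv0 : v = 0
      · rw [hv0]
        simp
      · exact (hneg v hv hv0).le
    nlinarith [sq_nonneg c]
  have h4 := B6_semi _ hsemi
  have hinf : W ⊓ Submodule.span ℝ {x} = ⊥ := by
    rw [eq_bot_iff]
    rintro v ⟨hv, hv2⟩
    obtain ⟨c, rfl⟩ := Submodule.mem_span_singleton.mp hv2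
    rw [Submodule.mem_bot]
    by_contra hne
    have h5 := hneg _ hv hne
    have h6 := hxW _ hv
    rw [map_smul B6, LinearMap.smul_apply, h6, smul_zero] at h5
    exact lt_irrefl _ h5
  have h7 := Submodule.finrank_sup_add_finrank_inf_eq W (Submodule.span ℝ {x})
  rw [hinf, finrank_bot, finrank_span_singleton hx0, h3] at h7
  omega

/-- the positive plane orthogonal to the span -/
lemma plane {t : Fin k → Fin 6 → ℝ} {W : Submodule ℝ (Fin 6 → ℝ)}
    (hW : W ≤ Submodule.span ℝ (Set.range t)) (hneg : ∀ x ∈ W, x ≠ 0 → B6 x x < 0)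
    (h3 : Module.finrank ℝ W = 3) (hr : (Matrix.of fun i j => B6 (t i) (t j)).rank = 4) :
    ∃ x y : Fin 6 → ℝ, (∀ i, B6 x (t i) = 0) ∧ (∀ i, B6 y (t i) = 0) ∧ 0 < B6 x x ∧ B6 y y = B6 x x ∧
      B6 x y = 0 := by
  let Pm : Matrix (Fin 6) (Fin k) ℝ := Matrix.of fun a i => t i a
  let S : Matrix (Fin 6) (Fin 6) ℝ := !![0, 0, 0, 0, 0, 1; 0, 0, 0, 0, -1, 0; 0, 0, 0, 1, 0, 0;
    0, 0, 1, 0, 0, 0; 0, -1, 0, 0, 0, 0; 1, 0, 0, 0, 0, 0]
  -- `B6 (t i) x` in terms of matrices
  have hM : ∀ x i, ((Pm.transpose * S).mulVec x) i = B6 x (t i) := by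
    intro x i
    rw [← Matrix.mulVec_mulVec, B6_apply]
    simp only [Matrix.mulVec, dotProduct, Matrix.transpose_apply, Pm, Matrix.of_apply, S,
      Fin.sum_univ_six]
    simp [Fin.isValue]
    ring
  have hP : ∀ c : Fin k → ℝ, Pm.mulVec c = ∑ i, c i • t i := by
    intro c
    funext a
    simp only [Matrix.mulVec, dotProduct, Pm, Matrix.of_apply, Finset.sum_apply, Pi.smul_apply,
      smul_eq_mul]
    exact Finset.sum_congr rfl fun i _ => mul_comm _ _
  have hspan : ∀ c : Fin k → ℝ, Pm.mulVec c ∈ Submodule.span ℝ (Set.range t) := by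
    intro c
    rw [hP]
    exact Submodule.sum_mem _ fun i _ =>
      Submodule.smul_mem _ _ (Submodule.subset_span (Set.mem_range_self i))
  have hG : (Matrix.of fun i j => B6 (t i) (t j)) = Pm.transpose * S * Pm := by
    ext i j
    have h1 := hM (t j) i
    rw [Matrix.of_apply, B6_symm, ← h1]
    simp only [Matrix.mul_apply (M := Pm.transpose * S), Matrix.mulVec, dotProduct, Pm, Matrix.of_apply]
  -- the kernels agree
  have hker : LinearMap.ker (Matrix.of fun i j => B6 (t i) (t j)).mulVecLin = LinearMap.ker Pm.mulVecLin := by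
    ext c
    rw [LinearMap.mem_ker, LinearMap.mem_ker, Matrix.mulVecLin_apply, Matrix.mulVecLin_apply, hG,
      ← Matrix.mulVec_mulVec]
    constructor
    · intro h
      by_contra hne
      have h1 : ∀ i, B6 (Pm.mulVec c) (t i) = 0 := by
        intro i
        rw [← hM, h]
        rfl
      have h2 := perp_pos hW hneg h3 h1 hne
      rw [perp_span h1 (hspan c)] at h2
      exact lt_irrefl _ h2
    · intro h
      rw [h, Matrix.mulVec_zero]
  have hrP : Pm.rank = 4 := by
    have a1 := LinearMap.finrank_range_add_finrank_ker (Matrix.of fun i j => B6 (t i) (t j)).mulVecLin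
    have a2 := LinearMap.finrank_range_add_finrank_ker Pm.mulVecLin
    rw [hker] at a1
    unfold Matrix.rank at hr ⊢
    omega
  have hrM : (Pm.transpose * S).rank ≤ 4 := by
    refine (Matrix.rank_mul_le_left _ _).trans ?_
    rw [Matrix.rank_transpose, hrP]
  have hkM : 2 ≤ Module.finrank ℝ (LinearMap.ker (Pm.transpose * S).mulVecLin) := by
    have a1 := LinearMap.finrank_range_add_finrank_ker (Pm.transpose * S).mulVecLin
    unfold Matrix.rank at hrM
    rw [Module.finrank_fintype_fun_eq_card, Fintype.card_fin] at a1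
    omega
  have hmem : ∀ x, x ∈ LinearMap.ker (Pm.transpose * S).mulVecLin → ∀ i, B6 x (t i) = 0 := by
    intro x hx i
    rw [LinearMap.mem_ker, Matrix.mulVecLin_apply] at hx
    rw [← hM, hx]
    rfl
  set Kr := LinearMap.ker (Pm.transpose * S).mulVecLin with hKr
  obtain ⟨x, hx, hx0⟩ : ∃ x ∈ Kr, x ≠ 0 := by
    by_contra hcon
    push Not at hcon
    have : Kr = ⊥ := by
      rw [eq_bot_iff]
      intro x hx
      exact (Submodule.mem_bot ℝ).mpr (hcon x hx)
    rw [this, finrank_bot] at hkM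
    omega
  obtain ⟨y, hy, hy0⟩ : ∃ y ∈ Kr, y ∉ Submodule.span ℝ {x} := by
    by_contra hcon
    push Not at hcon
    have h1 : Kr ≤ Submodule.span ℝ {x} := hcon
    have h2 := Submodule.finrank_mono h1
    rw [finrank_span_singleton hx0] at h2
    omega
  have px := perp_pos hW hneg h3 (hmem x hx) hx0
  set y1 : Fin 6 → ℝ := y - (B6 x y / B6 x x) • x with hy1
  have hy1m : y1 ∈ Kr := Kr.sub_mem hy (Kr.smul_mem _ hx)
  have hy1n : y1 ≠ 0 := by
    intro h
    apply hy0
    rw [hy1, sub_eq_zero] at h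
    rw [h]
    exact Submodule.smul_mem _ _ (Submodule.mem_span_singleton_self x)
  have py := perp_pos hW hneg h3 (hmem y1 hy1m) hy1n
  have hxy : B6 x y1 = 0 := by
    rw [hy1, map_sub, map_smul, smul_eq_mul, div_mul_cancel₀ _ px.ne', sub_self]
  have hq : 0 < B6 x x / B6 y1 y1 := div_pos px py
  refine ⟨x, Real.sqrt (B6 x x / B6 y1 y1) • y1, hmem x hx, hmem _ (Kr.smul_mem _ hy1m), px, ?_, ?_⟩
  · rw [map_smul B6, LinearMap.smul_apply, map_smul, smul_eq_mul, smul_eq_mul, ← mul_assoc,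
      Real.mul_self_sqrt hq.le, div_mul_cancel₀ _ py.ne']
  · rw [map_smul, hxy, smul_zero]

end Pool.Agent.Helper26.TOR
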