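import Mathlib

/-!
Linear algebra for arrangements of tori: a symmetric matrix `H` with zero diagonal, `H + diag E` positive
semidefinite and at most `N` negative eigenvalues has `∑ H i j ≤ N * ∑ E i`.
-/

set_option autoImplicit false

open Finset

namespace Pool.Agent.Helper26.TOR

variable {ι : Type*} [Fintype ι] [DecidableEq ι]

/-- the quadratic form of a real matrix -/
def qf (H : ι → ι → ℝ) (x : ι → ℝ) : ℝ := ∑ i, ∑ j, x i * H i j * x j

/-- the spectral theorem in coordinates -/
lemma spectral (M : ι → ι → ℝ) (hM : ∀ i j, M i j = M j i) :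
    ∃ (v : ι → ι → ℝ) (l : ι → ℝ),
      (∀ a b, ∑ i, v a i * v b i = if a = b then 1 else 0) ∧
      (∀ i j, ∑ a, v a i * v a j = if i = j then 1 else 0) ∧
      (∀ a i, ∑ j, M i j * v a j = l a * v a i) ∧
      (∑ a, l a = ∑ i, M i i) ∧ (Matrix.of M).rank = (univ.filter fun a => l a ≠ 0).card := by
  have hH : (Matrix.of M).IsHermitian := by
    ext i j
    simp [Matrix.conjTranspose_apply, hM j i]
  have orth : ∀ a b, ∑ i, hH.eigenvectorBasis a i * hH.eigenvectorBasis b i =
      if a = b then (1 : ℝ) else 0 := by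
    intro a b
    have h := orthonormal_iff_ite.mp hH.eigenvectorBasis.orthonormal a b
    rw [← h, PiLp.inner_apply]
    refine Finset.sum_congr rfl fun i _ => ?_
    simp [mul_comm]
  refine ⟨fun a i => hH.eigenvectorBasis a i, hH.eigenvalues, orth, ?_, ?_, ?_, ?_⟩
  · have h1 : (Matrix.of fun a i => hH.eigenvectorBasis a i) *
        (Matrix.of fun a i => hH.eigenvectorBasis a i).transpose = (1 : Matrix ι ι ℝ) := by
      ext a b
      rw [Matrix.mul_apply, Matrix.one_apply, ← orth a b]
      rfl
    have h2 := mul_eq_one_comm.mp h1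
    intro i j
    have h3 := congrFun (congrFun h2 i) j
    rw [Matrix.mul_apply, Matrix.one_apply] at h3
    rw [← h3]
    rfl
  · intro a i
    have h := congrFun (hH.mulVec_eigenvectorBasis a) i
    simpa [Matrix.mulVec, dotProduct] using h
  · have h := hH.trace_eq_sum_eigenvalues
    simp only [Matrix.trace, Matrix.diag, Matrix.of_apply, RCLike.ofReal_real_eq_id, id] at h
    exact h.symm
  · rw [hH.rank_eq_card_non_zero_eigs, Fintype.card_subtype]

/-- the spectral data of an arrangement, for positive `E` -/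
lemma index_data (H : ι → ι → ℝ) (hH : ∀ i j, H i j = H j i) (h0 : ∀ i, H i i = 0) (E : ι → ℝ)
    (hE : ∀ i, 0 < E i) (hpsd : ∀ x : ι → ℝ, 0 ≤ qf H x + ∑ i, E i * x i ^ 2) :
    ∃ l c : ι → ℝ, (∀ a, -1 ≤ l a) ∧ ∑ a, l a = 0 ∧ ∑ i, ∑ j, H i j = ∑ a, l a * c a ^ 2 ∧
      ∑ a, c a ^ 2 = ∑ i, E i ∧ (Matrix.of H).rank = (univ.filter fun a => l a ≠ 0).card ∧
      ∃ W : Submodule ℝ (ι → ℝ), (∀ x ∈ W, x ≠ 0 → qf H x < 0) ∧
        Module.finrank ℝ W = (univ.filter fun a => l a < 0).card := by
  set s : ι → ℝ := fun i => Real.sqrt (E i) with hs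
  have hs0 : ∀ i, 0 < s i := fun i => Real.sqrt_pos.mpr (hE i)
  have hs1 : ∀ i, s i ≠ 0 := fun i => (hs0 i).ne'
  have hs2 : ∀ i, s i ^ 2 = E i := fun i => Real.sq_sqrt (hE i).le
  obtain ⟨v, l, orth, comp, eig, tr, rk⟩ := spectral (fun i j => H i j / (s i * s j)) (by
    intro i j
    rw [hH i j, mul_comm (s i)])
  have tr0 : ∑ a, l a = 0 := by
    rw [tr]
    simp [h0]
  -- the form of `∑ c a • v a`, divided by `s`
  have form : ∀ c : ι → ℝ, qf H (fun i => (∑ a, c a * v a i) / s i) = ∑ a, l a * c a ^ 2 := by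
    intro c
    unfold qf
    have e1 : ∀ i, ∑ j, (∑ a, c a * v a i) / s i * H i j * ((∑ a, c a * v a j) / s j) =
        (∑ a, c a * v a i) * ∑ a, c a * (l a * v a i) := by
      intro i
      have : ∀ a, l a * v a i = ∑ j, H i j / (s i * s j) * v a j := fun a => (eig a i).symm
      simp only [this]
      rw [Finset.mul_sum]
      have e2 : ∑ a, (∑ b, c b * v b i) * (c a * ∑ j, H i j / (s i * s j) * v a j) =
          ∑ j, ∑ a, (∑ b, c b * v b i) * (c a * (H i j / (s i * s j) * v a j)) := by
        rw [Finset.sum_comm]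
        refine Finset.sum_congr rfl fun a _ => ?_
        rw [Finset.mul_sum, Finset.mul_sum]
      rw [e2]
      refine Finset.sum_congr rfl fun j _ => ?_
      have h1 := hs1 i
      have h2 := hs1 j
      rw [show (∑ a, c a * v a i) / s i * H i j * ((∑ a, c a * v a j) / s j) =
        ((∑ a, c a * v a i) * (H i j / (s i * s j))) * ∑ a, c a * v a j by
          field_simp]
      rw [Finset.mul_sum]
      refine Finset.sum_congr rfl fun a _ => ?_
      ring
    simp only [e1]
    have e3 : ∀ i, (∑ a, c a * v a i) * ∑ a, c a * (l a * v a i) =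
        ∑ a, ∑ b, (c a * c b * l b) * (v a i * v b i) := by
      intro i
      rw [Finset.sum_mul_sum]
      refine Finset.sum_congr rfl fun a _ => Finset.sum_congr rfl fun b _ => ?_
      ring
    simp only [e3]
    rw [Finset.sum_comm]
    refine Finset.sum_congr rfl fun a _ => ?_
    rw [Finset.sum_comm]
    simp only [← Finset.mul_sum, orth]
    simp only [mul_ite, mul_one, mul_zero, Finset.sum_ite_eq, Finset.mem_univ, if_true]
    ring
  -- eigenvalues are at least `-1`
  have hl : ∀ a, -1 ≤ l a := by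
    intro a
    have h1 := hpsd (fun i => (∑ b, (if b = a then (1 : ℝ) else 0) * v b i) / s i)
    rw [form] at h1
    have h2 : ∑ b, l b * (if b = a then (1 : ℝ) else 0) ^ 2 = l a := by
      simp [ite_pow]
    have h3 : ∑ i, E i * ((∑ b, (if b = a then (1 : ℝ) else 0) * v b i) / s i) ^ 2 = 1 := by
      have h4 : ∀ i, E i * ((∑ b, (if b = a then (1 : ℝ) else 0) * v b i) / s i) ^ 2 =
          v a i * v a i := by
        intro i
        have h5 := hs1 i
        simp only [ite_mul, one_mul, zero_mul, Finset.sum_ite_eq', Finset.mem_univ, if_true]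
        rw [div_pow, hs2 i]
        have h6 := (hE i).ne'
        field_simp
      simp only [h4, orth]
      simp
    rw [h2, h3] at h1
    linarith
  -- the negative ones
  have hW : ∃ W : Submodule ℝ (ι → ℝ), (∀ x ∈ W, x ≠ 0 → qf H x < 0) ∧
      Module.finrank ℝ W = (univ.filter fun a => l a < 0).card := by
    set Ng := Finset.univ.filter fun a => l a < 0 with hNg
    -- extension by zero
    let ext : (Ng → ℝ) → ι → ℝ := fun c a => if h : a ∈ Ng then c ⟨a, h⟩ else 0
    let Ψ : (Ng → ℝ) →ₗ[ℝ] (ι → ℝ) :=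
      { toFun := fun c i => (∑ a, ext c a * v a i) / s i
        map_add' := by
          intro c d
          funext i
          simp only [Pi.add_apply]
          rw [← add_div, ← Finset.sum_add_distrib]
          congr 1
          refine Finset.sum_congr rfl fun a _ => ?_
          simp only [ext]
          split_ifs
          · simp only [Pi.add_apply]
            ring
          · ring
        map_smul' := by
          intro r c
          funext i
          simp only [Pi.smul_apply, smul_eq_mul, RingHom.id_apply]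
          rw [mul_div_assoc', Finset.mul_sum]
          congr 1
          refine Finset.sum_congr rfl fun a _ => ?_
          simp only [ext]
          split_ifs
          · simp only [Pi.smul_apply, smul_eq_mul]
            ring
          · ring }
    have hval : ∀ c, qf H (Ψ c) = ∑ a, l a * ext c a ^ 2 := fun c => form (ext c)
    have hneg : ∀ c, c ≠ 0 → qf H (Ψ c) < 0 := by
      intro c hc
      rw [hval]
      obtain ⟨b, hb⟩ := Function.ne_iff.mp hc
      have hle : ∀ a ∈ Finset.univ, l a * ext c a ^ 2 ≤ 0 := by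
        intro a _
        by_cases ha : a ∈ Ng
        · have : l a < 0 := (Finset.mem_filter.mp ha).2
          exact mul_nonpos_of_nonpos_of_nonneg this.le (sq_nonneg _)
        · simp [ext, ha]
      have hlt : l b * ext c b ^ 2 < 0 := by
        have h1 : l b < 0 := (Finset.mem_filter.mp b.2).2
        have h2 : ext c b = c b := by simp [ext]
        rw [h2]
        have h3 : c b ≠ 0 := hb
        exact mul_neg_of_neg_of_pos h1 (by positivity)
      exact Finset.sum_neg' hle ⟨b, Finset.mem_univ _, hlt⟩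
    have hinj : Function.Injective Ψ := by
      rw [← LinearMap.ker_eq_bot, LinearMap.ker_eq_bot']
      intro c hc
      by_contra hne
      have := hneg c hne
      rw [hc] at this
      simp [qf] at this
    refine ⟨LinearMap.range Ψ, ?_, ?_⟩
    · rintro x ⟨c, rfl⟩ hx
      refine hneg c ?_
      rintro rfl
      exact hx (map_zero _)
    · rw [LinearMap.finrank_range_of_inj hinj]
      simp only [Module.finrank_fintype_fun_eq_card, Fintype.card_coe]
  -- conclusion
  have hfin := form (fun a => ∑ i, s i * v a i)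
  have e1 : ∀ i, (∑ a, (∑ j, s j * v a j) * v a i) / s i = 1 := by
    intro i
    have : ∑ a, (∑ j, s j * v a j) * v a i = s i := by
      have h1 : ∀ a, (∑ j, s j * v a j) * v a i = ∑ j, s j * (v a j * v a i) := by
        intro a
        rw [Finset.sum_mul]
        exact Finset.sum_congr rfl fun j _ => by ring
      simp only [h1]
      rw [Finset.sum_comm]
      simp only [← Finset.mul_sum, comp]
      simp
    rw [this, div_self (hs1 i)]
  have e2 : qf H (fun i => (∑ a, (∑ j, s j * v a j) * v a i) / s i) = ∑ i, ∑ j, H i j := by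
    unfold qf
    simp only [e1, one_mul, mul_one]
  have e3 : ∑ a, (∑ i, s i * v a i) ^ 2 = ∑ i, E i := by
    have h1 : ∀ a, (∑ i, s i * v a i) ^ 2 = ∑ i, ∑ j, (s i * s j) * (v a i * v a j) := by
      intro a
      rw [sq, Finset.sum_mul_sum]
      exact Finset.sum_congr rfl fun i _ => Finset.sum_congr rfl fun j _ => by ring
    simp only [h1]
    rw [Finset.sum_comm]
    have h2 : ∀ i, ∑ a, ∑ j, (s i * s j) * (v a i * v a j) = E i := by
      intro i
      rw [Finset.sum_comm]
      simp only [← Finset.mul_sum, comp]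
      simp only [mul_ite, mul_one, mul_zero, Finset.sum_ite_eq, Finset.mem_univ, if_true]
      rw [← sq, hs2]
    simp only [h2]
  -- the rank
  have hr : (Matrix.of H).rank = (univ.filter fun a => l a ≠ 0).card := by
    rw [← rk]
    have hm : (Matrix.of fun i j => H i j / (s i * s j)) =
        Matrix.diagonal (fun i => (s i)⁻¹) * Matrix.of H * Matrix.diagonal (fun i => (s i)⁻¹) := by
      ext i j
      rw [Matrix.mul_diagonal, Matrix.diagonal_mul]
      simp only [Matrix.of_apply]
      have h1 := hs1 i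
      have h2 := hs1 j
      field_simp
    have hu : IsUnit (Matrix.diagonal (fun i => (s i)⁻¹)).det := by
      rw [Matrix.det_diagonal, isUnit_iff_ne_zero, Finset.prod_ne_zero_iff]
      intro i _
      exact inv_ne_zero (hs1 i)
    rw [hm, Matrix.rank_mul_eq_left_of_isUnit_det _ _ hu, Matrix.rank_mul_eq_right_of_isUnit_det _ _ hu]
  exact ⟨l, _, hl, tr0, by rw [← e2, hfin], e3, hr, hW⟩

/-- the numerical part -/
lemma index_num (l c : ι → ℝ) (hl : ∀ a, -1 ≤ l a) (tr0 : ∑ a, l a = 0) (N : ℕ)
    (hcard : (univ.filter fun a => l a < 0).card ≤ N) :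
    (∑ a, l a * c a ^ 2 ≤ N * ∑ a, c a ^ 2) ∧
      (∑ a, l a * c a ^ 2 = N * ∑ a, c a ^ 2 → 0 < ∑ a, c a ^ 2 →
        (univ.filter fun a => l a < 0).card = N ∧ (1 ≤ N → (univ.filter fun a => l a ≠ 0).card = N + 1)) := by
  have h4 : ∑ b, (if l b < 0 then (1 : ℝ) else 0) = ((univ.filter fun a => l a < 0).card : ℝ) := by
    rw [Finset.sum_ite]
    simp
  have h5 : ((univ.filter fun a => l a < 0).card : ℝ) ≤ N := by exact_mod_cast hcard
  have hf : ∀ b, 0 ≤ l b + (if l b < 0 then (1 : ℝ) else 0) := by
    intro b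
    split_ifs with hb
    · linarith [hl b]
    · push Not at hb
      linarith
  have hmax : ∀ a, l a ≤ N := by
    intro a
    have h1 : ∑ b, (l b + if l b < 0 then (1 : ℝ) else 0) = ((univ.filter fun a => l a < 0).card : ℝ) := by
      rw [Finset.sum_add_distrib, tr0, h4, zero_add]
    have h2 := Finset.single_le_sum (fun b _ => hf b) (Finset.mem_univ a)
    rw [h1] at h2
    have h3 : l a ≤ l a + (if l a < 0 then (1 : ℝ) else 0) := by
      split_ifs <;> linarith
    linarith
  refine ⟨?_, ?_⟩
  · rw [Finset.mul_sum]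
    exact Finset.sum_le_sum fun a _ => mul_le_mul_of_nonneg_right (hmax a) (sq_nonneg _)
  · intro heq hpos
    -- some eigenvalue equals `N`
    obtain ⟨a, ha⟩ : ∃ a, l a = N := by
      by_contra hcon
      push Not at hcon
      have hlt : ∑ a, l a * c a ^ 2 < ∑ a, N * c a ^ 2 := by
        obtain ⟨b, hb⟩ : ∃ b, c b ≠ 0 := by
          by_contra hc
          push Not at hc
          simp [hc] at hpos
        refine Finset.sum_lt_sum (fun a _ => mul_le_mul_of_nonneg_right (hmax a) (sq_nonneg _))
          ⟨b, Finset.mem_univ _, ?_⟩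
        have h1 : l b < N := lt_of_le_of_ne (hmax b) (hcon b)
        have h2 : 0 < c b ^ 2 := by positivity
        exact mul_lt_mul_of_pos_right h1 h2
      rw [← Finset.mul_sum] at hlt
      linarith
    have hN0 : (0 : ℝ) ≤ N := Nat.cast_nonneg N
    have hna : ¬ l a < 0 := by rw [ha]; linarith
    -- the others
    have hsum : ∑ b ∈ univ.erase a, (l b + if l b < 0 then (1 : ℝ) else 0) =
        ((univ.filter fun a => l a < 0).card : ℝ) - N := by
      have h1 : ∑ b, (l b + if l b < 0 then (1 : ℝ) else 0) = ((univ.filter fun a => l a < 0).card : ℝ) := by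
        rw [Finset.sum_add_distrib, tr0, h4, zero_add]
      rw [← Finset.add_sum_erase _ _ (Finset.mem_univ a)] at h1
      rw [if_neg hna, add_zero, ha] at h1
      linarith
    have hs0 : 0 ≤ ∑ b ∈ univ.erase a, (l b + if l b < 0 then (1 : ℝ) else 0) :=
      Finset.sum_nonneg fun b _ => hf b
    have hcN : ((univ.filter fun a => l a < 0).card : ℝ) = N := by linarith
    have hz : ∀ b, b ≠ a → l b + (if l b < 0 then (1 : ℝ) else 0) = 0 := by
      intro b hb
      have h1 : ∑ b ∈ univ.erase a, (l b + if l b < 0 then (1 : ℝ) else 0) = 0 := by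
        rw [hsum, hcN, sub_self]
      exact (Finset.sum_eq_zero_iff_of_nonneg fun b _ => hf b).mp h1 b
        (Finset.mem_erase.mpr ⟨hb, Finset.mem_univ b⟩)
    have hcN' : (univ.filter fun a => l a < 0).card = N := by exact_mod_cast hcN
    refine ⟨hcN', fun hN1 => ?_⟩
    have hset : (univ.filter fun a => l a ≠ 0) = insert a (univ.filter fun a => l a < 0) := by
      ext b
      simp only [Finset.mem_filter, Finset.mem_univ, true_and, Finset.mem_insert]
      constructor
      · intro hb
        by_cases hba : b = a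
        · exact Or.inl hba
        · right
          by_contra hc
          have := hz b hba
          simp only [hc, if_false, add_zero] at this
          exact hb this
      · rintro (rfl | hb)
        · rw [ha]
          have : (1 : ℝ) ≤ N := by exact_mod_cast hN1
          linarith
        · exact hb.ne
    rw [hset, Finset.card_insert_of_notMem (by simp [hna]), hcN']

/-- the case of positive `E` -/
lemma index_pos (H : ι → ι → ℝ) (hH : ∀ i j, H i j = H j i) (h0 : ∀ i, H i i = 0) (E : ι → ℝ)
    (hE : ∀ i, 0 < E i) (hpsd : ∀ x : ι → ℝ, 0 ≤ qf H x + ∑ i, E i * x i ^ 2) (N : ℕ)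
    (hN : ∀ W : Submodule ℝ (ι → ℝ), (∀ x ∈ W, x ≠ 0 → qf H x < 0) → Module.finrank ℝ W ≤ N) :
    ∑ i, ∑ j, H i j ≤ N * ∑ i, E i := by
  obtain ⟨l, c, hl, tr0, e1, e2, -, W, hW, hfin⟩ := index_data H hH h0 E hE hpsd
  have h := hN W hW
  rw [hfin] at h
  rw [e1, ← e2]
  exact (index_num l c hl tr0 N h).1

/-- the case of equality -/
theorem index_eq [Nonempty ι] (H : ι → ι → ℝ) (hH : ∀ i j, H i j = H j i) (h0 : ∀ i, H i i = 0) (E : ι → ℝ)
    (hE : ∀ i, 0 < E i) (hpsd : ∀ x : ι → ℝ, 0 ≤ qf H x + ∑ i, E i * x i ^ 2) (N : ℕ) (hN1 : 1 ≤ N)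
    (hN : ∀ W : Submodule ℝ (ι → ℝ), (∀ x ∈ W, x ≠ 0 → qf H x < 0) → Module.finrank ℝ W ≤ N)
    (heq : ∑ i, ∑ j, H i j = N * ∑ i, E i) :
    (Matrix.of H).rank = N + 1 ∧
      ∃ W : Submodule ℝ (ι → ℝ), (∀ x ∈ W, x ≠ 0 → qf H x < 0) ∧ Module.finrank ℝ W = N := by
  obtain ⟨l, c, hl, tr0, e1, e2, hr, W, hW, hfin⟩ := index_data H hH h0 E hE hpsd
  have h := hN W hW
  rw [hfin] at h
  rw [e1, ← e2] at heq
  have hpos : 0 < ∑ a, c a ^ 2 := by
    rw [e2]
    exact Finset.sum_pos (fun i _ => hE i) Finset.univ_nonempty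
  obtain ⟨h1, h2⟩ := (index_num l c hl tr0 N h).2 heq hpos
  exact ⟨by rw [hr, h2 hN1], W, hW, by rw [hfin, h1]⟩

/-- **Index bound.** -/
theorem index_bound (H : ι → ι → ℝ) (hH : ∀ i j, H i j = H j i) (h0 : ∀ i, H i i = 0) (E : ι → ℝ)
    (hE : ∀ i, 0 ≤ E i) (hpsd : ∀ x : ι → ℝ, 0 ≤ qf H x + ∑ i, E i * x i ^ 2) (N : ℕ)
    (hN : ∀ W : Submodule ℝ (ι → ℝ), (∀ x ∈ W, x ≠ 0 → qf H x < 0) → Module.finrank ℝ W ≤ N) :
    ∑ i, ∑ j, H i j ≤ N * ∑ i, E i := by
  have key : ∀ ε : ℝ, 0 < ε → ∑ i, ∑ j, H i j ≤ N * ∑ i, E i + ε * (N * Fintype.card ι) := by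
    intro ε hε
    have h := index_pos H hH h0 (fun i => E i + ε) (fun i => by have := hE i; positivity) (by
      intro x
      have h1 := hpsd x
      have h2 : ∑ i, E i * x i ^ 2 ≤ ∑ i, (E i + ε) * x i ^ 2 := by
        refine Finset.sum_le_sum fun i _ => ?_
        nlinarith [sq_nonneg (x i)]
      linarith) N hN
    rw [Finset.sum_add_distrib] at h
    simp only [Finset.sum_const, Finset.card_univ, nsmul_eq_mul] at h
    nlinarith [h]
  by_contra hcon
  push Not at hcon
  set d := ∑ i, ∑ j, H i j - N * ∑ i, E i with hd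
  have hd0 : 0 < d := by linarith
  have hc : (0 : ℝ) ≤ N * Fintype.card ι := by positivity
  have := key (d / (2 * (N * Fintype.card ι + 1))) (by positivity)
  have h2 : d / (2 * (N * Fintype.card ι + 1)) * (N * Fintype.card ι) ≤ d / 2 := by
    rw [div_mul_eq_mul_div, div_le_div_iff₀ (by positivity) (by norm_num)]
    nlinarith
  linarith

end Pool.Agent.Helper26.TOR
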