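import Mathlib
import Pool.Agent.Helper26.TOR.T4

/-!
# MP_872606_gt: covers branched along symplectic tori and other surfaces of nonpositive square

`X` is a closed symplectic four-manifold with canonical class `K` and Euler number `e`, and the `C_i` are
symplectic surfaces of genus `g_i` and of square `≤ 0`, which meet positively in ordinary multiple points.
`V = H_2(X; ℝ)`, `B` is the intersection form, `t i` is the class of `C_i` (`IsArr`), `S p` is the set of
the surfaces through the point `p`.  The points of `Bl` are blown up, the others are ordinary double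
points.  For the weights `w_i = 1 - 1 / n_i` and `z_p = 1 - 1 / m_p` the numbers `cOneSq`, `cTwo` are the
Chern numbers, divided by the degree, of a covering which is branched with the orders `n_i` along the
`C_i` and `m_p` along the exceptional spheres.
-/

set_option autoImplicit false

namespace Pool.Agent.Helper26.TOR.TorusArrangements

open Pool.Agent.Helper26.TOR

/-- **Main theorem.** `N` is at least the negative index of the intersection form on the span of the
`C_i` (for example `N = b⁻(X)`). Then
`c_1² + (3 e - K²) + curv + rest + (3 - N) / 4 * mass ≤ 3 c_2`, where `curv` is the sum of the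
`w_i (2 g_i - 2 + (2 - w_i) C_i²)` and `rest ≥ 0` is the sum of the `(z_p + s_p / 2 - 2)²`. So
`c_1² ≤ 3 c_2` if `b⁻(X) ≤ 3`, `K² ≤ 3 e` and all `g_i ≥ 1 - C_i²`, for example for tori in the
four-torus. In the case of equality (with `N ≥ 1`, positive weights, every `C_i` meeting another one) the
matrix `(C_i . C_j)` without its diagonal has rank `N + 1`, and if `X` is the four-torus, `N = 3`, then
the planes `H_1(C_i; ℝ)` in `ℝ⁴` are complex lines, with the right orientation, for one complex structure
`J` of `ℝ⁴`. -/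
theorem result (V : Type) [AddCommGroup V] [Module ℝ V] (B : V →ₗ[ℝ] V →ₗ[ℝ] ℝ)
    (hB : ∀ x y, B x y = B y x) (k m N : ℕ) (K : V) (S : Fin m → Finset (Fin k)) (g : Fin k → ℕ)
    (t : Fin k → V) (h : IsArr B K S g t) (hN : NegLE B (Submodule.span ℝ (Set.range t)) N) (e : ℝ)
    (Bl : Finset (Fin m)) (hBl : ∀ p ∉ Bl, (S p).card = 2) (w : Fin k → ℝ) (z : Fin m → ℝ)
    (hw : ∀ i, 0 ≤ w i) :
    cOneSq S (B (K + ∑ i, w i • t i) (K + ∑ i, w i • t i)) Bl w z + (3 * e - B K K) +
        curv B g t w + rest S Bl w z + (3 - N) / 4 * mass S Bl w ≤ 3 * cTwo S e g Bl w z ∧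
    (1 ≤ N → 0 < k → (∀ i, 0 < w i) → (∀ i, ∃ j, j ≠ i ∧ 0 < num S i j) →
      cOneSq S (B (K + ∑ i, w i • t i) (K + ∑ i, w i • t i)) Bl w z + (3 * e - B K K) +
          curv B g t w + rest S Bl w z + (3 - N) / 4 * mass S Bl w = 3 * cTwo S e g Bl w z →
      (offDiag B t).rank = N + 1 ∧
      (N = 3 → ∀ A : Fin k → Matrix (Fin 4) (Fin 2) ℤ, (∀ i j, B (t i) (t j) = inter (A i) (A j)) →
        ∃ J : Matrix (Fin 4) (Fin 4) ℝ, J * J = -1 ∧
          ∀ i, ∃ c : Matrix (Fin 2) (Fin 2) ℝ, J * toR (A i) = toR (A i) * c ∧ 0 < c 1 0)) := by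
  refine ⟨main_ineq hB hN h e Bl hBl w hw z, fun hN1 hk hw1 hd heq => ?_⟩
  have h1 := eq_index hB h e Bl hBl w z heq
  refine ⟨(index_equality hB hN1 hN h Bl hBl w hw1 hk (deg_pos hd) h1).1, ?_⟩
  rintro rfl A hA
  refine T4_eq S A (fun i j hij => ?_) Bl hBl w hw1 hk hd (by
    push_cast at h1
    exact h1)
  have h2 := h.inter i j hij
  rw [hA i j] at h2
  exact_mod_cast h2

end Pool.Agent.Helper26.TOR.TorusArrangements
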